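import Mathlib

namespace Pool.Agent.H.MP_4e44b6_al

open Set Filter Topology

/-- finitely many connected components -/
def FC {X : Type} [TopologicalSpace X] (U : Set X) : Prop :=
  (connectedComponentIn U '' U).Finite

theorem FC.of_cover {X ι : Type} [TopologicalSpace X] {U : Set X} {I : Set ι} (hI : I.Finite)
    (W : ι → Set X) (hW : ∀ i ∈ I, IsPreconnected (W i)) (hWU : ∀ i ∈ I, W i ⊆ U)
    (h : ∀ x ∈ U, ∃ i ∈ I, (connectedComponentIn U x ∩ W i).Nonempty) : FC U := by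
  refine (hI.image (fun i => ⋃ y ∈ W i, connectedComponentIn U y)).subset ?_
  rintro _ ⟨x, hx, rfl⟩
  obtain ⟨i, hi, y, hy, hy'⟩ := h x hx
  refine ⟨i, hi, ?_⟩
  have key : ∀ z ∈ W i, connectedComponentIn U z = connectedComponentIn U x := by
    intro z hz
    have h1 : z ∈ connectedComponentIn U y := (hW i hi).subset_connectedComponentIn hy' (hWU i hi) hz
    rw [← connectedComponentIn_eq h1, ← connectedComponentIn_eq hy]
  ext z
  simp only [mem_iUnion]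
  exact ⟨fun ⟨w, hw, hz⟩ => key w hw ▸ hz, fun hz => ⟨y, hy', (key y hy').symm ▸ hz⟩⟩

theorem FC.image {X Y : Type} [TopologicalSpace X] [TopologicalSpace Y] {U : Set X} (h : FC U)
    {g : X → Y} (hg : Continuous g) : FC (g '' U) := by
  refine FC.of_cover h (fun K => g '' K) ?_ ?_ ?_
  · rintro _ ⟨x, -, rfl⟩
    exact isPreconnected_connectedComponentIn.image g hg.continuousOn
  · rintro _ ⟨x, -, rfl⟩
    exact image_mono (connectedComponentIn_subset U x)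
  · rintro _ ⟨x, hx, rfl⟩
    exact ⟨_, ⟨x, hx, rfl⟩, g x, mem_connectedComponentIn ⟨x, hx, rfl⟩,
      x, mem_connectedComponentIn hx, rfl⟩

theorem FC_compl {Z : Set ℝ} (hZ : Z.Finite) : FC Zᶜ := by
  refine FC.of_cover hZ.powerset
    (fun S => {y | (∀ z ∈ Z, z ∈ S → z < y) ∧ ∀ z ∈ Z, z ∉ S → y < z}) ?_ ?_ ?_
  · intro S _
    refine OrdConnected.isPreconnected ⟨fun a ha b hb c hc => ⟨fun z hz hs => ?_, fun z hz hs => ?_⟩⟩
    · exact (ha.1 z hz hs).trans_le hc.1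
    · exact hc.2.trans_lt (hb.2 z hz hs)
  · intro S _ y hy hz
    by_cases hs : y ∈ S
    · exact lt_irrefl _ (hy.1 y hz hs)
    · exact lt_irrefl _ (hy.2 y hz hs)
  · intro y hy
    refine ⟨{z ∈ Z | z < y}, sep_subset _ _, y, mem_connectedComponentIn hy, fun z _ hs => hs.2,
      fun z hz hs => ?_⟩
    have : ¬ z < y := fun h => hs ⟨hz, h⟩
    exact lt_of_le_of_ne (not_lt.mp this) fun e => hy (e ▸ hz)

section Step

variable {X : Type} [TopologicalSpace X] [LocallyConnectedSpace X]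
  {f f' : X → ℝ → ℝ} {C : Set X}

theorem local_step (hC : IsOpen C) (hf : Continuous fun p : X × ℝ => f p.1 p.2)
    (hf' : Continuous fun p : X × ℝ => f' p.1 p.2) (hd : ∀ x y, HasDerivAt (f x) (f' x y) y)
    {x₁ : X} (hx₁ : x₁ ∈ C) (hs : ∀ y, f x₁ y ≠ 0 ∨ f' x₁ y ≠ 0) (hfin : {y | f x₁ y = 0}.Finite)
    (hb : ∃ R, ∀ᶠ x in 𝓝 x₁, ∀ y, f x y = 0 → y ∈ Icc (-R) R) :
    ∀ᶠ x in 𝓝 x₁, ∀ y, f x y ≠ 0 →
      ∃ h, (x₁, h) ∈ connectedComponentIn {p : X × ℝ | p.1 ∈ C ∧ f p.1 p.2 ≠ 0} (x, y) := by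
  set W := {p : X × ℝ | p.1 ∈ C ∧ f p.1 p.2 ≠ 0} with hW
  -- horizontal moves
  have hor : ∀ {P : X → Prop}, (∀ᶠ x in 𝓝 x₁, P x) → ∃ V ∈ 𝓝 x₁, (∀ x ∈ V, P x) ∧ V ⊆ C ∧
      ∀ h, (∀ x ∈ V, f x h ≠ 0) → ∀ x ∈ V, (x₁, h) ∈ connectedComponentIn W (x, h) := by
    intro P hP
    obtain ⟨V, hV, hVc, hVs⟩ := locallyConnectedSpace_iff_connected_subsets.mp ‹_› x₁ _
      (inter_mem hP (hC.mem_nhds hx₁))
    refine ⟨V, hV, fun x hx => (hVs hx).1, fun x hx => (hVs hx).2, fun h hh x hx => ?_⟩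
    have : IsPreconnected (V ×ˢ ({h} : Set ℝ)) := hVc.prod isPreconnected_singleton
    refine this.subset_connectedComponentIn (show (x, h) ∈ _ from ⟨hx, rfl⟩) ?_
      ⟨mem_of_mem_nhds hV, rfl⟩
    rintro ⟨a, b⟩ ⟨ha, rfl : b = h⟩
    exact ⟨(hVs ha).2, hh a ha⟩
  obtain ⟨R, hR⟩ := hb
  obtain ⟨V₀, hV₀, hV₀P, -, hV₀h⟩ := hor hR
  have main : ∀ᶠ x in 𝓝 x₁, ∀ y ∈ Icc (-R) R, f x y ≠ 0 →
      ∃ h, (x₁, h) ∈ connectedComponentIn W (x, y) := by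
    refine isCompact_Icc.eventually_forall_of_forall_eventually fun y₀ _ => ?_
    have box : ∃ g : X → ℝ → ℝ, (g = f ∨ g = f') ∧ ∀ᶠ p : X × ℝ in 𝓝 (x₁, y₀), g p.1 p.2 ≠ 0 := by
      rcases hs y₀ with h | h
      · exact ⟨f, Or.inl rfl, hf.continuousAt.eventually_ne h⟩
      · exact ⟨f', Or.inr rfl, hf'.continuousAt.eventually_ne h⟩
    obtain ⟨g, hg, hbox⟩ := box
    rw [nhds_prod_eq] at hbox ⊢
    obtain ⟨pa, hpa, pb, hpb, hab⟩ := eventually_prod_iff.mp hbox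
    obtain ⟨l, u, hlu, hsub⟩ := mem_nhds_iff_exists_Ioo_subset.mp hpb
    obtain ⟨a, ha, haf⟩ := (Ioo_infinite hlu.1).exists_notMem_finite hfin
    obtain ⟨b, hb, hbf⟩ := (Ioo_infinite hlu.2).exists_notMem_finite hfin
    have ca : ∀ c, f x₁ c ≠ 0 → ∀ᶠ x in 𝓝 x₁, f x c ≠ 0 := fun c hc =>
      (hf.comp (continuous_id.prodMk continuous_const)).continuousAt.eventually_ne hc
    obtain ⟨V, hV, hVP, hVC, hVh⟩ := hor (hpa.and ((ca a haf).and (ca b hbf)))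
    refine eventually_prod_iff.mpr ⟨(· ∈ V), hV, (· ∈ Ioo a b), Ioo_mem_nhds ha.2 hb.1, ?_⟩
    intro x hx y hy hxy
    have hgI : ∀ z ∈ Icc a b, g x z ≠ 0 := fun z hz =>
      hab (hVP x hx).1 (hsub ⟨ha.1.trans_le hz.1, hz.2.trans_lt hb.2⟩)
    have ver : ∀ c d, (∀ z ∈ Icc c d, f x z ≠ 0) → ∀ h ∈ Icc c d, y ∈ Icc c d →
        (∀ x ∈ V, f x h ≠ 0) → (x₁, h) ∈ connectedComponentIn W (x, y) := by
      intro c d hcd h hh hy' hV'
      have : IsPreconnected (({x} : Set X) ×ˢ Icc c d) :=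
        isPreconnected_singleton.prod isPreconnected_Icc
      have h1 : (x, h) ∈ connectedComponentIn W (x, y) := by
        refine this.subset_connectedComponentIn (show (x, y) ∈ _ from ⟨rfl, hy'⟩) ?_ ⟨rfl, hh⟩
        rintro ⟨a, b⟩ ⟨rfl : a = x, hb⟩
        exact ⟨hVC hx, hcd b hb⟩
      rw [connectedComponentIn_eq h1]
      exact hVh h hV' x hx
    by_cases h1 : ∀ z ∈ Icc a y, f x z ≠ 0
    · exact ⟨a, ver a y h1 a ⟨le_rfl, hy.1.le⟩ ⟨hy.1.le, le_rfl⟩ fun x hx => (hVP x hx).2.1⟩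
    by_cases h2 : ∀ z ∈ Icc y b, f x z ≠ 0
    · exact ⟨b, ver y b h2 b ⟨hy.2.le, le_rfl⟩ ⟨le_rfl, hy.2.le⟩ fun x hx => (hVP x hx).2.2⟩
    exfalso
    push Not at h1 h2
    obtain ⟨z₁, hz₁, e₁⟩ := h1
    obtain ⟨z₂, hz₂, e₂⟩ := h2
    rcases hg with rfl | rfl
    · exact hgI z₁ ⟨hz₁.1, hz₁.2.trans hy.2.le⟩ e₁
    · have hlt : z₁ < z₂ := lt_of_le_of_ne (hz₁.2.trans hz₂.1) fun e =>
        hxy (by rw [le_antisymm (e ▸ hz₂.1) hz₁.2]; exact e₁)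
      obtain ⟨c, hc, hc0⟩ := exists_hasDerivAt_eq_zero hlt
        (fun z _ => (hd x z).continuousAt.continuousWithinAt) (e₁.trans e₂.symm) fun z _ => hd x z
      exact hgI c ⟨hz₁.1.trans hc.1.le, hc.2.le.trans hz₂.2⟩ hc0
  filter_upwards [main, hV₀] with x hx hx0 y hy
  by_cases hyR : y ∈ Icc (-R) R
  · exact hx y hyR hy
  · exact ⟨y, hV₀h y (fun x' hx' e => hyR (hV₀P x' hx' y e)) x hx0⟩

theorem global_step (hC : IsOpen C) (hCc : IsPreconnected C)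
    (hf : Continuous fun p : X × ℝ => f p.1 p.2)
    (hf' : Continuous fun p : X × ℝ => f' p.1 p.2) (hd : ∀ x y, HasDerivAt (f x) (f' x y) y)
    (hs : ∀ x ∈ C, ∀ y, f x y ≠ 0 ∨ f' x y ≠ 0) (hfin : ∀ x ∈ C, {y | f x y = 0}.Finite)
    (hb : ∀ x₁ ∈ C, ∃ R, ∀ᶠ x in 𝓝 x₁, ∀ y, f x y = 0 → y ∈ Icc (-R) R) :
    FC {p : X × ℝ | p.1 ∈ C ∧ f p.1 p.2 ≠ 0} := by
  set W := {p : X × ℝ | p.1 ∈ C ∧ f p.1 p.2 ≠ 0} with hW
  have hWo : IsOpen W := (hC.preimage continuous_fst).inter (isOpen_ne_fun hf continuous_const)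
  rcases C.eq_empty_or_nonempty with rfl | ⟨x₀, hx₀⟩
  · have : W = ∅ := by ext; simp [hW]
    rw [this]; simp [FC]
  refine FC.of_cover (FC_compl (hfin x₀ hx₀)) (fun K => ({x₀} : Set X) ×ˢ K) ?_ ?_ ?_
  · rintro _ ⟨y, -, rfl⟩
    exact isPreconnected_singleton.prod isPreconnected_connectedComponentIn
  · rintro _ ⟨y, -, rfl⟩ ⟨a, b⟩ ⟨rfl : a = x₀, hb⟩
    exact ⟨hx₀, connectedComponentIn_subset _ _ hb⟩
  · intro p hp
    have hK : C ⊆ Prod.fst '' connectedComponentIn W p := by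
      refine hCc.subset_of_closure_inter_subset (isOpenMap_fst _ hWo.connectedComponentIn)
        ⟨p.1, hp.1, p, mem_connectedComponentIn hp, rfl⟩ ?_
      rintro x₁ ⟨hcl, hx₁⟩
      obtain ⟨_, hx, ⟨x, y⟩, hq, rfl⟩ := mem_closure_iff_nhds.mp hcl _
        (local_step hC hf hf' hd hx₁ (hs x₁ hx₁) (hfin x₁ hx₁) (hb x₁ hx₁))
      obtain ⟨h, hh⟩ := hx y (connectedComponentIn_subset _ _ hq).2
      exact ⟨(x₁, h), connectedComponentIn_eq hq ▸ hh, rfl⟩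
    obtain ⟨⟨a, h⟩, hq, rfl : a = x₀⟩ := hK hx₀
    have hh : h ∈ {y | f a y = 0}ᶜ := (connectedComponentIn_subset _ _ hq).2
    exact ⟨_, ⟨h, hh, rfl⟩, (a, h), hq, rfl, mem_connectedComponentIn hh⟩

end Step

end Pool.Agent.H.MP_4e44b6_al
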