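import Pool.Agent.H.MP_4e44b6_al.A

namespace Pool.Agent.H.MP_4e44b6_al

open Set Filter Topology Polynomial

theorem clear {R : Type} [CommRing R] [IsDomain R] (g : (FractionRing R)[X]) :
    ∃ d : R, d ≠ 0 ∧ ∃ G : R[X],
      G.map (algebraMap R (FractionRing R)) = C (algebraMap R (FractionRing R) d) * g := by
  obtain ⟨b, hb, e⟩ := IsLocalization.integerNormalization_spec (nonZeroDivisors R) g
  exact ⟨b, nonZeroDivisors.ne_zero hb, _, by rw [e, Algebra.smul_def]; rfl⟩

theorem alg_step {R : Type} [CommRing R] [IsDomain R] [CharZero R] (q : R[X]) (hq : q ≠ 0) :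
    ∃ (Q : R[X]) (d e : R), Q ≠ 0 ∧ d ≠ 0 ∧ e ≠ 0 ∧ (∃ k H, C d * Q ^ k = q * H) ∧
      ∃ A B, A * Q + B * derivative Q = C e := by
  set φ := algebraMap R (FractionRing R) with hφ
  have inj : Function.Injective φ := IsFractionRing.injective R _
  have minj := Polynomial.map_injective φ inj
  have hqK : q.map φ ≠ 0 := fun h => hq (minj (by simpa using h))
  obtain ⟨s, k, hs, -, h, hh⟩ := exists_squarefree_dvd_pow_of_ne_zero hqK
  obtain ⟨a, b, hab⟩ : IsCoprime s (derivative s) := PerfectField.separable_iff_squarefree.mpr hs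
  obtain ⟨dQ, hdQ, Q, hQ⟩ := clear s
  obtain ⟨dh, hdh, H, hH⟩ := clear h
  obtain ⟨da, hda, A, hA⟩ := clear a
  obtain ⟨db, hdb, B, hB⟩ := clear b
  rw [← hφ] at hQ hH hA hB
  refine ⟨Q, dh, da * db * dQ, ?_, hdh, by simp [hda, hdb, hdQ], ⟨k, C (dQ ^ k) * H, minj ?_⟩,
    C db * A, C da * B, minj ?_⟩
  · rintro rfl
    rw [Polynomial.map_zero, eq_comm, mul_eq_zero, C_eq_zero] at hQ
    rcases hQ with h0 | h0
    · exact hdQ (inj (h0.trans (map_zero φ).symm))
    · exact hs.ne_zero h0
  · simp only [Polynomial.map_mul, Polynomial.map_pow, map_C, hQ, hH, mul_pow, hh, map_pow]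
    ring
  · simp only [Polynomial.map_mul, Polynomial.map_add, map_C, ← derivative_map, hQ, hA, hB,
      derivative_C_mul, map_mul]
    linear_combination C (φ da) * C (φ db) * C (φ dQ) * hab

theorem dense_ne {n : ℕ} (δ : MvPolynomial (Fin n) ℝ) (hδ : δ ≠ 0) {O : Set (Fin n → ℝ)}
    (hO : IsOpen O) (hne : O.Nonempty) : ∃ x ∈ O, MvPolynomial.eval x δ ≠ 0 := by
  by_contra h
  push Not at h
  obtain ⟨x, hx⟩ := hne
  obtain ⟨ε, hε, hb⟩ := Metric.isOpen_iff.mp hO x hx
  refine hδ (MvPolynomial.funext_set (fun i => Metric.ball (x i) ε) (fun i => ?_) fun y hy => ?_)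
  · rw [Real.ball_eq_Ioo]; exact Ioo_infinite (by linarith)
  · rw [map_zero]
    exact h y (hb (by rw [ball_pi _ hε]; exact hy))

theorem cont_ev {n : ℕ} (Q : (MvPolynomial (Fin n) ℝ)[X]) :
    Continuous fun p : (Fin n → ℝ) × ℝ => (Q.map (MvPolynomial.eval p.1)).eval p.2 := by
  simp only [eval_map, eval₂_eq_sum_range]
  refine continuous_finsetSum _ fun i _ => ?_
  exact ((MvPolynomial.continuous_eval _).comp continuous_fst).mul (continuous_snd.pow i)

theorem root_bound (c : ℕ → ℝ) (D : ℕ) (y : ℝ) (hc : c D ≠ 0)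
    (h : ∑ i ∈ Finset.range (D + 1), c i * y ^ i = 0) :
    |y| ≤ 1 + (∑ i ∈ Finset.range D, |c i|) / |c D| := by
  have h0 : 0 ≤ (∑ i ∈ Finset.range D, |c i|) / |c D| := by positivity
  by_contra hlt
  push Not at hlt
  have hy1 : 1 ≤ |y| := by linarith
  have hcD : 0 < |c D| := abs_pos.mpr hc
  rcases D with _ | D
  · simp at h; exact hc h
  rw [Finset.sum_range_succ] at h
  have h1 : |c (D + 1)| * |y| ^ (D + 1) ≤ (∑ i ∈ Finset.range (D + 1), |c i|) * |y| ^ D := by
    rw [← abs_pow, ← abs_mul, eq_neg_of_add_eq_zero_right h, abs_neg, Finset.sum_mul]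
    refine (Finset.abs_sum_le_sum_abs _ _).trans (Finset.sum_le_sum fun i hi => ?_)
    rw [abs_mul, abs_pow]
    exact mul_le_mul_of_nonneg_left
      (pow_le_pow_right₀ hy1 (Nat.lt_succ_iff.mp (Finset.mem_range.mp hi))) (abs_nonneg _)
  rw [pow_succ, mul_comm (|y| ^ D), ← mul_assoc] at h1
  have h2 := le_of_mul_le_mul_right h1 (by positivity)
  have h3 : |y| ≤ (∑ i ∈ Finset.range (D + 1), |c i|) / |c (D + 1)| := by
    rw [le_div_iff₀ hcD]; linarith
  linarith

theorem FC_poly : ∀ (n : ℕ) (q : MvPolynomial (Fin n) ℝ), FC {x | MvPolynomial.eval x q ≠ 0} := by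
  intro n
  induction n with
  | zero => intro q; exact (toFinite _).image _
  | succ n ih =>
    intro q₀
    set q := MvPolynomial.finSuccEquiv ℝ n q₀ with hq
    suffices h : FC {p : (Fin n → ℝ) × ℝ | (q.map (MvPolynomial.eval p.1)).eval p.2 ≠ 0} by
      have hg : Continuous fun p : (Fin n → ℝ) × ℝ => (Fin.cons p.2 p.1 : Fin (n + 1) → ℝ) := by
        fun_prop
      have := h.image hg
      refine (congrArg FC ?_).mp this
      ext x
      constructor
      · rintro ⟨p, hp, rfl⟩
        rwa [mem_ofPred_eq, MvPolynomial.eval_eq_eval_mv_eval']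
      · intro hx
        refine ⟨(Fin.tail x, x 0), ?_, Fin.cons_self_tail x⟩
        rw [mem_ofPred_eq, ← MvPolynomial.eval_eq_eval_mv_eval', Fin.cons_self_tail]
        exact hx
    set U := {p : (Fin n → ℝ) × ℝ | (q.map (MvPolynomial.eval p.1)).eval p.2 ≠ 0} with hU
    have hUo : IsOpen U := isOpen_ne_fun (cont_ev q) continuous_const
    by_cases h0 : q = 0
    · have : U = ∅ := by ext; simp [hU, h0]
      rw [this]; simp [FC]
    obtain ⟨Q, d, e, hQ, hd, he, ⟨k, H, hH⟩, A, B, hAB⟩ := alg_step q h0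
    set δ := d * e * Q.leadingCoeff with hδ
    have hδ0 : δ ≠ 0 := by simp [hδ, hd, he, hQ]
    set G := {x : Fin n → ℝ | MvPolynomial.eval x δ ≠ 0} with hG
    have hGo : IsOpen G := isOpen_ne_fun (MvPolynomial.continuous_eval _) continuous_const
    have hGx : ∀ x ∈ G, MvPolynomial.eval x d ≠ 0 ∧ MvPolynomial.eval x e ≠ 0 ∧
        MvPolynomial.eval x Q.leadingCoeff ≠ 0 := by
      intro x hx
      simpa [hG, hδ, not_or, and_assoc] using hx
    have hfin : ∀ x ∈ G, {y | (Q.map (MvPolynomial.eval x)).eval y = 0}.Finite := by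
      intro x hx
      refine (Q.map (MvPolynomial.eval x)).finite_setOfPred_isRoot fun h => (hGx x hx).2.2 ?_
      have := congrArg (fun p => p.coeff Q.natDegree) h
      simpa using this
    set W := fun C : Set (Fin n → ℝ) =>
      {p : (Fin n → ℝ) × ℝ | p.1 ∈ C ∧ (Q.map (MvPolynomial.eval p.1)).eval p.2 ≠ 0} with hW
    have hWU : ∀ C ⊆ G, W C ⊆ U := by
      intro C hC p hp h
      have := congrArg (fun r => (r.map (MvPolynomial.eval p.1)).eval p.2) hH
      simp only [Polynomial.map_mul, Polynomial.map_pow, map_C, eval_mul, eval_pow, eval_C, h,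
        zero_mul, mul_eq_zero] at this
      rcases this with h1 | h1
      · exact (hGx _ (hC hp.1)).1 h1
      · exact hp.2 (pow_eq_zero_iff (by rintro rfl; simp at h1) |>.mp h1)
    have hFC : ∀ x₀, FC (W (connectedComponentIn G x₀)) := by
      intro x₀
      have hsub := connectedComponentIn_subset G x₀
      refine global_step (f := fun x y => (Q.map (MvPolynomial.eval x)).eval y)
        (f' := fun x y => ((derivative Q).map (MvPolynomial.eval x)).eval y)
        hGo.connectedComponentIn isPreconnected_connectedComponentIn (cont_ev Q) (cont_ev _)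
        (fun x y => by rw [← derivative_map]; exact Polynomial.hasDerivAt _ y) ?_
        (fun x hx => hfin x (hsub hx)) ?_
      · intro x hx y
        by_contra h
        push Not at h
        have := congrArg (fun r => (r.map (MvPolynomial.eval x)).eval y) hAB
        simp only [Polynomial.map_mul, Polynomial.map_add, map_C, eval_mul, eval_add, eval_C, h.1,
          h.2, mul_zero, add_zero] at this
        exact (hGx x (hsub hx)).2.1 this.symm
      · intro x₁ hx₁
        set β := fun x : Fin n → ℝ => 1 + (∑ i ∈ Finset.range Q.natDegree,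
          |MvPolynomial.eval x (Q.coeff i)|) / |MvPolynomial.eval x (Q.coeff Q.natDegree)| with hβ
        have hc : ContinuousAt β x₁ := by
          refine continuousAt_const.add (ContinuousAt.div ?_ ?_ ?_)
          · exact (continuous_finsetSum _ fun i _ =>
              (MvPolynomial.continuous_eval _).abs).continuousAt
          · exact (MvPolynomial.continuous_eval _).abs.continuousAt
          · exact abs_ne_zero.mpr (hGx x₁ (hsub hx₁)).2.2
        refine ⟨β x₁ + 1, ?_⟩
        filter_upwards [hc.eventually (gt_mem_nhds (lt_add_one (β x₁))),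
          hGo.mem_nhds (hsub hx₁)] with x hx hxG y hy
        rw [eval_map, eval₂_eq_sum_range] at hy
        have := root_bound (fun i => MvPolynomial.eval x (Q.coeff i)) Q.natDegree y
          (hGx x hxG).2.2 hy
        exact abs_le.mp (this.trans hx.le)
    refine FC.of_cover (I := ⋃ C ∈ connectedComponentIn G '' G, connectedComponentIn (W C) '' W C)
      (Finite.biUnion (ih δ) ?_) id ?_ ?_ ?_
    · rintro _ ⟨x₀, -, rfl⟩
      exact hFC x₀
    · intro K hK
      simp only [mem_iUnion] at hK
      obtain ⟨C, -, p, -, rfl⟩ := hK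
      exact isPreconnected_connectedComponentIn
    · intro K hK
      simp only [mem_iUnion] at hK
      obtain ⟨_, ⟨x₀, -, rfl⟩, p, -, rfl⟩ := hK
      exact (connectedComponentIn_subset _ _).trans (hWU _ (connectedComponentIn_subset G x₀))
    · intro p hp
      have hKo : IsOpen (connectedComponentIn U p) := hUo.connectedComponentIn
      obtain ⟨_, ⟨⟨x, y⟩, hxy, rfl⟩, hx⟩ := dense_ne δ hδ0 (isOpenMap_fst _ hKo)
        ⟨p.1, p, mem_connectedComponentIn hp, rfl⟩
      have hO : IsOpen {z : ℝ | (x, z) ∈ connectedComponentIn U p} :=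
        hKo.preimage (continuous_const.prodMk continuous_id)
      obtain ⟨z, hz, hz'⟩ := (infinite_of_mem_nhds y (hO.mem_nhds hxy)).exists_notMem_finite
        (hfin x hx)
      have hm : (x, z) ∈ W (connectedComponentIn G x) := ⟨mem_connectedComponentIn hx, hz'⟩
      refine ⟨connectedComponentIn (W (connectedComponentIn G x)) (x, z), ?_, (x, z), hz,
        mem_connectedComponentIn hm⟩
      simp only [mem_iUnion]
      exact ⟨_, ⟨x, hx, rfl⟩, (x, z), hm, rfl⟩

end Pool.Agent.H.MP_4e44b6_al
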