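import Mathlib

namespace Pool.Agent.H.MP_4e44b6_al

open Set Filter Topology Quaternion

abbrev NC (m : ℕ) := MonoidAlgebra ℝ (FreeMonoid (Fin m))

noncomputable def ev {m : ℕ} {A : Type} [Ring A] [Algebra ℝ A] (p : NC m) (a : Fin m → A) : A :=
  MonoidAlgebra.lift ℝ A (FreeMonoid (Fin m)) (FreeMonoid.lift a) p

def wt {m : ℕ} (w : Fin m → ℕ) (u : FreeMonoid (Fin m)) : ℕ := (u.toList.map w).sum

def Hom {m : ℕ} (w : Fin m → ℕ) (d : ℤ) (p : NC m) : Prop :=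
  ∀ u ∈ p.coeff.support, (wt w u : ℤ) = d

def SemiHom {m : ℕ} (p : NC m) : Prop := ∃ w d, d ≠ 0 ∧ Hom w d p

variable {m : ℕ} {A B : Type} [Ring A] [Algebra ℝ A] [Ring B] [Algebra ℝ B]

theorem ev_eq (p : NC m) (a : Fin m → A) :
    ev p a = ∑ u ∈ p.coeff.support, p.coeff u • FreeMonoid.lift a u :=
  MonoidAlgebra.lift_apply _ _

theorem ev_map (φ : A →ₐ[ℝ] B) (p : NC m) (a : Fin m → A) :
    φ (ev p a) = ev p (fun l => φ (a l)) := by
  rw [ev_eq, ev_eq, map_sum]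
  refine Finset.sum_congr rfl fun u hu => ?_
  rw [map_smul]
  congr 1
  clear hu
  induction u using FreeMonoid.inductionOn with
  | one => simp
  | of x => simp
  | mul x y hx hy => simp [hx, hy]

theorem ev_mem (S : Subalgebra ℝ A) (p : NC m) (a : Fin m → A) (h : ∀ l, a l ∈ S) :
    ev p a ∈ S := by
  have := ev_map S.val p (fun l => ⟨a l, h l⟩)
  exact this ▸ (ev p (fun l => (⟨a l, h l⟩ : S))).2

theorem ev_fun {T : Type} (p : NC m) (a : Fin m → T → A) (t : T) :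
    ev p a t = ev p (fun l => a l t) :=
  ev_map (Pi.evalAlgHom ℝ (fun _ : T => A) t) p a

theorem wt_mul (w : Fin m → ℕ) (u v : FreeMonoid (Fin m)) : wt w (u * v) = wt w u + wt w v := by
  simp [wt]

theorem lift_scale (w : Fin m → ℕ) (c : ℝ) (a : Fin m → A) (u : FreeMonoid (Fin m)) :
    FreeMonoid.lift (fun l => c ^ w l • a l) u = c ^ wt w u • FreeMonoid.lift a u := by
  induction u using FreeMonoid.inductionOn with
  | one => simp [wt]
  | of x => simp [wt]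
  | mul x y hx hy => rw [map_mul, map_mul, hx, hy, wt_mul, pow_add, smul_mul_smul_comm]

theorem ev_scale {p : NC m} (hp : SemiHom p) {t : ℝ} (ht : 0 ≤ t) (a : Fin m → A) :
    ∃ a', ev p a' = t • ev p a := by
  obtain ⟨w, d, hd, h⟩ := hp
  rcases p.coeff.support.eq_empty_or_nonempty with h0 | ⟨u₀, hu₀⟩
  · exact ⟨a, by simp [ev_eq, h0]⟩
  have hn : wt w u₀ ≠ 0 := fun e => hd (by rw [← h u₀ hu₀, e]; rfl)
  refine ⟨fun l => (t ^ ((wt w u₀ : ℝ)⁻¹)) ^ w l • a l, ?_⟩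
  rw [ev_eq, ev_eq, Finset.smul_sum]
  refine Finset.sum_congr rfl fun u hu => ?_
  have : wt w u = wt w u₀ := by exact_mod_cast (h u hu).trans (h u₀ hu₀).symm
  rw [lift_scale, this, Real.rpow_inv_natCast_pow ht hn, smul_comm]

noncomputable def conjHom (u : ℍ[ℝ]) (hu : u ≠ 0) : ℍ[ℝ] →ₐ[ℝ] ℍ[ℝ] where
  toFun x := u * x * u⁻¹
  map_one' := by simp [hu]
  map_mul' x y := by simp [mul_assoc, hu]
  map_zero' := by simp
  map_add' x y := by simp [mul_add, add_mul]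
  commutes' r := by
    rw [← Algebra.commutes, mul_assoc, mul_inv_cancel₀ hu, mul_one]

theorem exists_conj (q q' : ℍ[ℝ]) (h1 : q.re = q'.re) (h2 : ‖q‖ = ‖q'‖) :
    ∃ u : ℍ[ℝ], u ≠ 0 ∧ u * q * u⁻¹ = q' := by
  have h3 : normSq q = normSq q' := by rw [normSq_eq_norm_mul_self, normSq_eq_norm_mul_self, h2]
  rw [normSq_def', normSq_def', h1] at h3
  suffices h : ∃ u : ℍ[ℝ], u ≠ 0 ∧ u * q = q' * u by
    obtain ⟨u, hu, e⟩ := h
    exact ⟨u, hu, by rw [e, mul_assoc, mul_inv_cancel₀ hu, mul_one]⟩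
  by_cases h : (⟨0, q.imI + q'.imI, q.imJ + q'.imJ, q.imK + q'.imK⟩ : ℍ[ℝ]) = 0
  · have e1 : q'.imI = -q.imI := by have := congrArg QuaternionAlgebra.imI h; simp at this; linarith
    have e2 : q'.imJ = -q.imJ := by have := congrArg QuaternionAlgebra.imJ h; simp at this; linarith
    have e3 : q'.imK = -q.imK := by have := congrArg QuaternionAlgebra.imK h; simp at this; linarith
    by_cases h' : (⟨0, -q.imJ, q.imI, 0⟩ : ℍ[ℝ]) = 0
    · have f1 : q.imJ = 0 := by simpa using congrArg QuaternionAlgebra.imI h'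
      have f2 : q.imI = 0 := by simpa using congrArg QuaternionAlgebra.imJ h'
      refine ⟨⟨0, 1, 0, 0⟩, fun e => by simpa using congrArg QuaternionAlgebra.imI e, ?_⟩
      ext <;> simp [h1, e1, e2, e3, f1, f2]
    · refine ⟨_, h', ?_⟩
      ext <;> simp [h1, e1, e2, e3] <;> ring
  · refine ⟨_, h, ?_⟩
    ext <;> simp [h1] <;> nlinarith

theorem cone_eq {p : NC m} (hp : SemiHom p) :
    range (ev (A := ℍ[ℝ]) p) = {0} ∪ {q | q ≠ 0 ∧ q.re / ‖q‖ ∈
      (fun q : ℍ[ℝ] => q.re / ‖q‖) '' (range (ev (A := ℍ[ℝ]) p) \ {0})} := by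
  ext q
  constructor
  · intro hq
    by_cases h : q = 0
    · exact Or.inl h
    · exact Or.inr ⟨h, q, ⟨hq, h⟩, rfl⟩
  · rintro (rfl | ⟨hq, _, ⟨⟨a, rfl⟩, h0⟩, e⟩)
    · simpa using ev_scale hp le_rfl (0 : Fin m → ℍ[ℝ])
    · have n0 : 0 < ‖ev p a‖ := norm_pos_iff.mpr h0
      have n1 : 0 < ‖q‖ := norm_pos_iff.mpr hq
      obtain ⟨a', ha'⟩ := ev_scale hp (div_pos n1 n0).le a
      obtain ⟨u, hu, e'⟩ := exists_conj (ev p a') q (by
        rw [ha', re_smul, smul_eq_mul]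
        simp only at e
        field_simp at e ⊢
        linarith) (by
        rw [ha', norm_smul, Real.norm_of_nonneg (div_pos n1 n0).le, div_mul_cancel₀ _ n0.ne'])
      exact ⟨fun l => conjHom u hu (a' l), by rw [← ev_map]; exact e'⟩

end Pool.Agent.H.MP_4e44b6_al
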