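import Pool.Agent.H.MP_4e44b6_al.C

namespace Pool.Agent.H.MP_4e44b6_al

open Set Filter Topology Quaternion Polynomial

theorem descent {R ι : Type} [CommRing R] (H : (ι → R[X]) → Prop)
    (step : ∀ t, H t → ∃ t', (∀ i, t i = X * t' i) ∧ H t') (t : ι → R[X]) (ht : H t) (i : ι) :
    t i = 0 := by
  have : ∀ k t, H t → X ^ k ∣ t i := by
    intro k
    induction k with
    | zero => simp
    | succ k ih =>
      intro t ht
      obtain ⟨t', e, h'⟩ := step t ht
      rw [e, pow_succ']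
      exact mul_dvd_mul_left _ (ih t' h')
  ext d
  exact X_pow_dvd_iff.mp (this (d + 1) t ht) d (Nat.lt_succ_self d)

theorem lim0 {f g : ℝ → ℝ} (hf : Continuous f) (hg : Continuous g) (h : ∀ v, 0 < v → f v ≤ g v) :
    f 0 ≤ g 0 :=
  le_of_tendsto_of_tendsto (b := 𝓝[>] 0) (hf.tendsto 0 |>.mono_left nhdsWithin_le_nhds)
    (hg.tendsto 0 |>.mono_left nhdsWithin_le_nhds) (eventually_nhdsWithin_of_forall h)

theorem par1 {K : ℝ} (a b : ℝ[X]) (h : ∀ u, 0 < u → a.eval u ^ 2 ≤ K * (u * b.eval u ^ 2) ∧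
    u * b.eval u ^ 2 ≤ K * a.eval u ^ 2) : a = 0 ∧ b = 0 := by
  have := descent (ι := Fin 2) (fun t => ∀ u : ℝ, 0 < u →
    (t 0).eval u ^ 2 ≤ K * (u * (t 1).eval u ^ 2) ∧ u * (t 1).eval u ^ 2 ≤ K * (t 0).eval u ^ 2)
    ?_ ![a, b] h
  · exact ⟨this 0, this 1⟩
  intro t ht
  have h0 := lim0 (f := fun u => (t 0).eval u ^ 2) (g := fun u => K * (u * (t 1).eval u ^ 2))
    (by fun_prop) (by fun_prop) fun u hu => (ht u hu).1
  have h1 : (t 0).coeff 0 = 0 := by
    rw [coeff_zero_eq_eval_zero]; simpa using h0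
  obtain ⟨a', ha⟩ := X_dvd_iff.mpr h1
  have h2 := lim0 (f := fun u => (t 1).eval u ^ 2) (g := fun u => K * (u * a'.eval u ^ 2))
    (by fun_prop) (by fun_prop) fun u hu => by
      have := (ht u hu).2
      rw [ha, eval_mul, eval_X] at this
      refine le_of_mul_le_mul_left (a := u) ?_ hu
      nlinarith
  have h3 : (t 1).coeff 0 = 0 := by
    rw [coeff_zero_eq_eval_zero]; simpa using h2
  obtain ⟨b', hb⟩ := X_dvd_iff.mpr h3
  refine ⟨![a', b'], fun i => by fin_cases i <;> assumption, fun u hu => ?_⟩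
  have := ht u hu
  rw [ha, hb, eval_mul, eval_mul, eval_X] at this
  have hu2 : 0 < u ^ 2 := by positivity
  constructor
  · refine le_of_mul_le_mul_left (a := u ^ 2) ?_ hu2
    simp only [Matrix.cons_val_zero, Matrix.cons_val_one]
    nlinarith [this.1]
  · refine le_of_mul_le_mul_left (a := u ^ 2) ?_ hu2
    simp only [Matrix.cons_val_zero, Matrix.cons_val_one]
    nlinarith [this.2]

theorem cont_evalEval (u : ℝ) (P : ℝ[X][X]) : Continuous fun v => P.evalEval u v := by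
  have : (fun v => P.evalEval u v) = fun v => (P.map (evalRingHom u)).eval v := by
    funext v; rw [map_evalRingHom_eval]
  rw [this]; fun_prop

theorem evalEval_zero' (u : ℝ) (P : ℝ[X][X]) : P.evalEval u 0 = (P.coeff 0).eval u := by
  rw [evalEval, map_zero, coeff_zero_eq_eval_zero]

theorem par2 {K : ℝ} (t : Fin 4 → ℝ[X][X]) (h : ∀ u v : ℝ, 0 < u → 0 < v →
    (t 0).evalEval u v ^ 2 ≤ K * (u * (t 1).evalEval u v ^ 2 + v * (t 2).evalEval u v ^ 2
      + u * v * (t 3).evalEval u v ^ 2) ∧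
    u * (t 1).evalEval u v ^ 2 + v * (t 2).evalEval u v ^ 2 + u * v * (t 3).evalEval u v ^ 2
      ≤ K * (t 0).evalEval u v ^ 2) (i : Fin 4) : t i = 0 := by
  refine descent (fun t : Fin 4 → ℝ[X][X] => ∀ u v : ℝ, 0 < u → 0 < v →
    (t 0).evalEval u v ^ 2 ≤ K * (u * (t 1).evalEval u v ^ 2 + v * (t 2).evalEval u v ^ 2
      + u * v * (t 3).evalEval u v ^ 2) ∧
    u * (t 1).evalEval u v ^ 2 + v * (t 2).evalEval u v ^ 2 + u * v * (t 3).evalEval u v ^ 2
      ≤ K * (t 0).evalEval u v ^ 2) ?_ t h i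
  intro t ht
  have c := fun u i => cont_evalEval u (t i)
  obtain ⟨h0, h1⟩ := par1 (K := K) ((t 0).coeff 0) ((t 1).coeff 0) fun u hu => by
    have e1 := lim0 (by have := c u; fun_prop) (by have := c u; fun_prop)
      fun v hv => (ht u v hu hv).1
    have e2 := lim0 (by have := c u; fun_prop) (by have := c u; fun_prop)
      fun v hv => (ht u v hu hv).2
    simpa [evalEval_zero'] using And.intro e1 e2
  obtain ⟨a', ha⟩ := X_dvd_iff.mpr h0
  obtain ⟨b', hb⟩ := X_dvd_iff.mpr h1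
  have h2 : ∀ u : ℝ, 0 < u → ((t 2).coeff 0).eval u = 0 ∧ ((t 3).coeff 0).eval u = 0 := by
    intro u hu
    have e := lim0 (f := fun v => (t 2).evalEval u v ^ 2 + u * (t 3).evalEval u v ^ 2)
      (g := fun v => K * (v * a'.evalEval u v ^ 2)) (by have := c u; fun_prop)
      (by have := cont_evalEval u a'; fun_prop) fun v hv => by
        have := (ht u v hu hv).2
        rw [ha, evalEval_mul, evalEval_X] at this
        refine le_of_mul_le_mul_left (a := v) ?_ hv
        have : 0 ≤ u * (t 1).evalEval u v ^ 2 := by positivity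
        nlinarith
    simp only [evalEval_zero', zero_mul, mul_zero] at e
    have p1 := sq_nonneg (((t 2).coeff 0).eval u)
    have p2 : 0 ≤ u * ((t 3).coeff 0).eval u ^ 2 := by positivity
    refine ⟨pow_eq_zero_iff two_ne_zero |>.mp (by linarith), ?_⟩
    have : u * ((t 3).coeff 0).eval u ^ 2 = 0 := by linarith
    simpa [hu.ne'] using this
  have h3 : (t 2).coeff 0 = 0 := eq_zero_of_infinite_isRoot _
    ((Ioi_infinite (0 : ℝ)).mono fun u hu => (h2 u hu).1)
  have h4 : (t 3).coeff 0 = 0 := eq_zero_of_infinite_isRoot _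
    ((Ioi_infinite (0 : ℝ)).mono fun u hu => (h2 u hu).2)
  obtain ⟨c', hc⟩ := X_dvd_iff.mpr h3
  obtain ⟨d', hd⟩ := X_dvd_iff.mpr h4
  refine ⟨![a', b', c', d'], fun i => by fin_cases i <;> assumption, fun u v hu hv => ?_⟩
  have := ht u v hu hv
  rw [ha, hb, hc, hd] at this
  simp only [evalEval_mul, evalEval_X] at this
  have hv2 : 0 < v ^ 2 := by positivity
  constructor
  · refine le_of_mul_le_mul_left (a := v ^ 2) ?_ hv2
    simp only [Matrix.cons_val]
    nlinarith [this.1]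
  · refine le_of_mul_le_mul_left (a := v ^ 2) ?_ hv2
    simp only [Matrix.cons_val]
    nlinarith [this.2]

noncomputable def Gen : Subalgebra ℝ (ℝ × ℝ → ℍ[ℝ]) where
  carrier := {F | ∃ A B C D : ℝ[X][X], ∀ x y : ℝ, F (x, y) = ⟨A.evalEval (x ^ 2) (y ^ 2),
    x * B.evalEval (x ^ 2) (y ^ 2), y * C.evalEval (x ^ 2) (y ^ 2),
    x * y * D.evalEval (x ^ 2) (y ^ 2)⟩}
  mul_mem' := by
    rintro F G ⟨A, B, C', D, h⟩ ⟨A', B', C'', D', h'⟩
    refine ⟨A * A' - C X * B * B' - X * C' * C'' - C X * X * D * D',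
      A * B' + B * A' + X * (C' * D' - D * C''), A * C'' + C' * A' + C X * (D * B' - B * D'),
      A * D' + D * A' + B * C'' - C' * B', fun x y => ?_⟩
    rw [Pi.mul_apply, h, h']
    ext <;> simp [evalEval_mul, evalEval_add, evalEval_sub, evalEval_C] <;> ring
  add_mem' := by
    rintro F G ⟨A, B, C', D, h⟩ ⟨A', B', C'', D', h'⟩
    refine ⟨A + A', B + B', C' + C'', D + D', fun x y => ?_⟩
    rw [Pi.add_apply, h, h']
    ext <;> simp [evalEval_add] <;> ring
  algebraMap_mem' := fun r => ⟨C (C r), 0, 0, 0, fun x y => by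
    ext <;> simp [evalEval_C]⟩

theorem ev_mem' {m : ℕ} {T : Type} (S : Subalgebra ℝ (T → ℍ[ℝ])) (p : NC m)
    (a : Fin m → T → ℍ[ℝ]) (h : ∀ l, a l ∈ S) : (fun t => ev p (fun l => a l t)) ∈ S := by
  have := ev_mem S p a h
  rwa [show ev p a = fun t => ev p (fun l => a l t) from funext fun t => ev_fun p a t] at this

def gq (a : ℍ[ℝ]) (z : ℝ × ℝ) : ℍ[ℝ] := ⟨a.re, z.1 * a.imI, z.2 * a.imJ, z.1 * z.2 * a.imK⟩

theorem parity {m : ℕ} (p : NC m) {K : ℝ} (h : ∀ a : Fin m → ℍ[ℝ],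
    (ev p a).re ^ 2 ≤ K * ((ev p a).imI ^ 2 + (ev p a).imJ ^ 2 + (ev p a).imK ^ 2) ∧
    (ev p a).imI ^ 2 + (ev p a).imJ ^ 2 + (ev p a).imK ^ 2 ≤ K * (ev p a).re ^ 2)
    (a : Fin m → ℍ[ℝ]) : ev p a = 0 := by
  obtain ⟨A, B, C', D, e⟩ := ev_mem' Gen p (fun l => gq (a l)) fun l =>
      ⟨C (C (a l).re), C (C (a l).imI), C (C (a l).imJ), C (C (a l).imK), fun x y => by
        simp [evalEval_C, gq]⟩
  have z := par2 (K := K) ![A, B, C', D] fun u v hu hv => by
    have h1 := h (fun l => gq (a l) (√u, √v))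
    have h2 := e √u √v
    simp only at h2
    rw [h2] at h1
    simp only [mul_pow, Real.sq_sqrt hu.le, Real.sq_sqrt hv.le] at h1
    exact h1
  have h2 := e 1 1
  have z0 : A = 0 := z 0
  have z1 : B = 0 := z 1
  have z2 : C' = 0 := z 2
  have z3 : D = 0 := z 3
  simp only [one_mul, z0, z1, z2, z3, evalEval_zero, gq] at h2
  exact h2

end Pool.Agent.H.MP_4e44b6_al
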