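import Pool.Agent.H.MP_4e44b6_al.B
import Pool.Agent.H.MP_4e44b6_al.D

namespace Pool.Agent.H.MP_4e44b6_al

open Set Filter Topology Quaternion Polynomial

theorem between1 (f g : ℝ[X]) (h0 : ∀ s, 0 ≤ f.eval s) (h1 : ∀ s, f.eval s ≤ g.eval s)
    (g0 : g.eval 0 ≠ 0) (g1 : g.eval 1 ≠ 0) :
    Icc (f.eval 0 / g.eval 0) (f.eval 1 / g.eval 1) ⊆
      closure ((fun s => f.eval s / g.eval s) '' {s | g.eval s ≠ 0}) := by
  classical
  obtain ⟨f₀, g₀, hf, hg, hu⟩ := extract_gcd f g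
  have hc : IsCoprime f₀ g₀ := (gcd_isUnit_iff _ _).mp hu
  generalize gcd f g = h at hf hg
  have hD : Dense {s | g.eval s ≠ 0} :=
    (g.finite_setOfPred_isRoot fun e => g0 (by simp [e])).countable.dense_compl ℝ
  have hh : ∀ s, g.eval s ≠ 0 → h.eval s ≠ 0 := fun s hs e => hs (by rw [hg, eval_mul, e, zero_mul])
  have hle : ∀ s, |f₀.eval s| ≤ |g₀.eval s| := by
    intro s
    refine (isClosed_le (f := fun s => |f₀.eval s|) (g := fun s => |g₀.eval s|) (by fun_prop)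
      (by fun_prop)).closure_subset_iff.mpr (fun s hs => ?_) (hD s)
    have e : |f.eval s| ≤ |g.eval s| := by
      rw [abs_of_nonneg (h0 s), abs_of_nonneg ((h0 s).trans (h1 s))]; exact h1 s
    rw [hf, hg, eval_mul, eval_mul, abs_mul, abs_mul] at e
    exact le_of_mul_le_mul_left e (abs_pos.mpr (hh s hs))
  have hg0 : ∀ s, g₀.eval s ≠ 0 := by
    intro s e
    have e' : f₀.eval s = 0 := by simpa [e] using hle s
    obtain ⟨a, b, hab⟩ := hc
    have := congrArg (eval s) hab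
    simp [e, e'] at this
  have hφ : Continuous fun s => f₀.eval s / g₀.eval s :=
    Continuous.div (by fun_prop) (by fun_prop) hg0
  have he : ∀ s, g.eval s ≠ 0 → f.eval s / g.eval s = f₀.eval s / g₀.eval s := by
    intro s hs
    rw [hf, hg, eval_mul, eval_mul, mul_div_mul_left _ _ (hh s hs)]
  rw [he 0 g0, he 1 g1, image_congr (s := {s | g.eval s ≠ 0}) he]
  refine (intermediate_value_univ 0 1 hφ).trans ?_
  rw [← image_univ, ← hD.closure_eq]
  exact image_closure_subset_closure_image hφ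

theorem line_ev {n : ℕ} (a b : Fin n → ℝ) (q : MvPolynomial (Fin n) ℝ) (s : ℝ) :
    (MvPolynomial.aeval (fun i => C (a i) + X * C (b i - a i)) q).eval s
      = MvPolynomial.eval (fun i => a i + s * (b i - a i)) q := by
  induction q using MvPolynomial.induction_on with
  | C r => simp
  | add p q hp hq => rw [map_add, eval_add, hp, hq, map_add]
  | mul_X p i hp => rw [map_mul, eval_mul, hp]; simp

theorem between {n : ℕ} (f g : MvPolynomial (Fin n) ℝ) (h0 : ∀ x, 0 ≤ MvPolynomial.eval x f)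
    (h1 : ∀ x, MvPolynomial.eval x f ≤ MvPolynomial.eval x g) :
    (closure ((fun x => MvPolynomial.eval x f / MvPolynomial.eval x g) ''
      {x | MvPolynomial.eval x g ≠ 0})).OrdConnected := by
  set T := (fun x => MvPolynomial.eval x f / MvPolynomial.eval x g) ''
      {x | MvPolynomial.eval x g ≠ 0} with hT
  have key : ∀ t₁ ∈ T, ∀ t₂ ∈ T, Icc t₁ t₂ ⊆ closure T := by
    rintro _ ⟨a, ha, rfl⟩ _ ⟨b, hb, rfl⟩
    have := between1 (MvPolynomial.aeval (fun i => C (a i) + X * C (b i - a i)) f)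
      (MvPolynomial.aeval (fun i => C (a i) + X * C (b i - a i)) g)
      (fun s => by rw [line_ev]; exact h0 _) (fun s => by rw [line_ev, line_ev]; exact h1 _)
      (by rw [line_ev]; simpa using ha) (by rw [line_ev]; simpa using hb)
    simp only [line_ev, zero_mul, add_zero, one_mul, add_sub_cancel] at this
    refine this.trans (closure_mono ?_)
    rintro _ ⟨s, hs, rfl⟩
    exact ⟨_, hs, rfl⟩
  refine ⟨fun x hx y hy z hz => ?_⟩
  rcases hz.1.eq_or_lt with rfl | h1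
  · exact hx
  rcases hz.2.eq_or_lt with rfl | h2
  · exact hy
  obtain ⟨t₁, h3, h4⟩ := mem_closure_iff_nhds.mp hx _ (Iio_mem_nhds h1)
  obtain ⟨t₂, h5, h6⟩ := mem_closure_iff_nhds.mp hy _ (Ioi_mem_nhds h2)
  exact key t₁ h4 t₂ h6 ⟨le_of_lt h3, le_of_lt h5⟩

def Adm (C : Set ℝ) : Prop :=
  C ⊆ {-1, 1} ∨ C = {0} ∨
    (C ⊆ Icc (-1) 1 ∧
      (∃ F : Set (Set ℝ), F.Finite ∧ (∀ I ∈ F, I.OrdConnected ∧ I.Nontrivial) ∧ ⋃₀ F = C) ∧
      ∃ γ : ℝ, closure ((· ^ 2) '' C) = Icc 0 γ ∨ closure ((· ^ 2) '' C) = Icc γ 1)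

theorem adm_abs {n : ℕ} (A N : MvPolynomial (Fin n) ℝ) (hN : ∀ x, 0 ≤ MvPolynomial.eval x N)
    (hpar : ∀ K : ℝ, (∀ x, MvPolynomial.eval x A ^ 2 ≤ K * MvPolynomial.eval x N ∧
      MvPolynomial.eval x N ≤ K * MvPolynomial.eval x A ^ 2) →
      ∀ x, MvPolynomial.eval x (A ^ 2 + N) = 0) :
    Adm ((fun x => MvPolynomial.eval x A / √(MvPolynomial.eval x (A ^ 2 + N))) ''
      {x | MvPolynomial.eval x (A ^ 2 + N) ≠ 0}) := by
  set G := A ^ 2 + N with hG
  set U := {x | MvPolynomial.eval x G ≠ 0} with hU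
  set c := fun x => MvPolynomial.eval x A / √(MvPolynomial.eval x G) with hc
  have hGx : ∀ x, MvPolynomial.eval x G = MvPolynomial.eval x A ^ 2 + MvPolynomial.eval x N := by
    simp [hG]
  have hG0 : ∀ x, 0 ≤ MvPolynomial.eval x G := fun x => by rw [hGx]; have := hN x; positivity
  have hGp : ∀ x ∈ U, 0 < MvPolynomial.eval x G := fun x hx => (hG0 x).lt_of_ne' hx
  have hc2 : ∀ x, c x ^ 2 = MvPolynomial.eval x (A ^ 2) / MvPolynomial.eval x G := fun x => by
    rw [hc, div_pow, Real.sq_sqrt (hG0 x), map_pow]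
  have hT : (· ^ 2) '' (c '' U) =
      (fun x => MvPolynomial.eval x (A ^ 2) / MvPolynomial.eval x G) '' U := by
    rw [image_image]; exact image_congr fun x _ => hc2 x
  have hAG : ∀ x, MvPolynomial.eval x (A ^ 2) ≤ MvPolynomial.eval x G := fun x => by
    rw [hGx, map_pow]; linarith [hN x]
  have hA0 : ∀ x, 0 ≤ MvPolynomial.eval x (A ^ 2) := fun x => by rw [map_pow]; positivity
  have hoc := between (A ^ 2) G hA0 hAG
  rw [← hU, ← hT] at hoc
  set T := (· ^ 2) '' (c '' U) with hTd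
  have hT1 : T ⊆ Icc 0 1 := by
    rw [hT]
    rintro _ ⟨x, hx, rfl⟩
    exact ⟨div_nonneg (hA0 x) (hG0 x), div_le_one_of_le₀ (hAG x) (hG0 x)⟩
  have hT2 : closure T ⊆ Icc 0 1 := closure_minimal hT1 isClosed_Icc
  rcases U.eq_empty_or_nonempty with h0 | ⟨x₀, hx₀⟩
  · left; rw [h0]; simp
  have hne : (closure T).Nonempty := ⟨_, subset_closure ⟨_, ⟨x₀, hx₀, rfl⟩, rfl⟩⟩
  have hI : closure T = Icc (sInf (closure T)) (sSup (closure T)) :=
    eq_Icc_of_connected_compact ⟨hne, hoc.isPreconnected⟩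
      (isCompact_Icc.of_isClosed_subset isClosed_closure hT2)
  generalize sInf (closure T) = α at hI
  generalize sSup (closure T) = β at hI
  have hαβ : α ≤ β := by rw [hI] at hne; exact nonempty_Icc.mp hne
  have hα : 0 ≤ α := (hT2 (hI ▸ left_mem_Icc.mpr hαβ)).1
  have hβ : β ≤ 1 := (hT2 (hI ▸ right_mem_Icc.mpr hαβ)).2
  have hend : α = 0 ∨ β = 1 := by
    by_contra h
    push Not at h
    have a1 : 0 < α := hα.lt_of_ne' h.1
    have a2 : 0 < 1 - β := sub_pos.mpr (hβ.lt_of_ne h.2)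
    refine hx₀ (hpar (α⁻¹ + (1 - β)⁻¹) (fun x => ?_) x₀)
    have b1 := hN x
    have b2 := sq_nonneg (MvPolynomial.eval x A)
    have b3 : α * MvPolynomial.eval x G ≤ MvPolynomial.eval x A ^ 2 ∧
        MvPolynomial.eval x A ^ 2 ≤ β * MvPolynomial.eval x G := by
      by_cases hx : x ∈ U
      · have : c x ^ 2 ∈ Icc α β := hI ▸ subset_closure ⟨_, ⟨x, hx, rfl⟩, rfl⟩
        rw [hc2, map_pow] at this
        exact ⟨(le_div_iff₀ (hGp x hx)).mp this.1, (div_le_iff₀ (hGp x hx)).mp this.2⟩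
      · have e : MvPolynomial.eval x G = 0 := not_not.mp hx
        have := hGx x
        rw [e]; constructor <;> linarith
    rw [hGx] at b3
    have b4 : MvPolynomial.eval x A ^ 2 ≤ (1 - β)⁻¹ * MvPolynomial.eval x N := by
      rw [← div_eq_inv_mul, le_div_iff₀ a2]; nlinarith [b3.2]
    have b5 : MvPolynomial.eval x N ≤ α⁻¹ * MvPolynomial.eval x A ^ 2 := by
      rw [← div_eq_inv_mul, le_div_iff₀ a1]; nlinarith [b3.1]
    have b6 : 0 ≤ α⁻¹ * MvPolynomial.eval x N := by positivity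
    have b7 : 0 ≤ (1 - β)⁻¹ * MvPolynomial.eval x A ^ 2 := by positivity
    constructor <;> linarith
  have hUo : IsOpen U := isOpen_ne_fun (MvPolynomial.continuous_eval _) continuous_const
  by_cases hdeg : ∃ x ∈ U, (c '' connectedComponentIn U x).Subsingleton
  · obtain ⟨x, hx, hs⟩ := hdeg
    have e : A ^ 2 - MvPolynomial.C (c x ^ 2) * G = 0 := by
      by_contra h
      obtain ⟨y, hy, hy'⟩ := dense_ne _ h (hUo.connectedComponentIn (x := x))
        ⟨x, mem_connectedComponentIn hx⟩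
      have e1 : c y = c x := hs ⟨y, hy, rfl⟩ ⟨x, mem_connectedComponentIn hx, rfl⟩
      have e2 := hc2 y
      rw [e1, eq_div_iff (connectedComponentIn_subset _ _ hy)] at e2
      exact hy' (by rw [map_sub, map_mul, MvPolynomial.eval_C, e2, sub_self])
    have e3 : ∀ y ∈ U, c y ^ 2 = c x ^ 2 := by
      intro y hy
      have := congrArg (MvPolynomial.eval y) e
      rw [map_sub, map_mul, MvPolynomial.eval_C, map_zero, sub_eq_zero] at this
      rw [hc2 y, this, mul_div_cancel_right₀ _ hy]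
    have e4 : closure T ⊆ {c x ^ 2} := closure_minimal (by
      rintro _ ⟨_, ⟨y, hy, rfl⟩, rfl⟩; exact e3 y hy) isClosed_singleton
    rcases hend with h | h
    · have e5 : c x ^ 2 = 0 := (e4 (hI ▸ left_mem_Icc.mpr hαβ)).symm.trans h
      right; left
      refine subset_antisymm ?_ ?_
      · rintro _ ⟨y, hy, rfl⟩
        exact pow_eq_zero_iff two_ne_zero |>.mp ((e3 y hy).trans e5)
      · rintro _ rfl
        exact ⟨x, hx, pow_eq_zero_iff two_ne_zero |>.mp e5⟩
    · have e5 : c x ^ 2 = 1 := (e4 (hI ▸ right_mem_Icc.mpr hαβ)).symm.trans h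
      left
      rintro _ ⟨y, hy, rfl⟩
      exact (sq_eq_one_iff.mp ((e3 y hy).trans e5)).symm
  · push Not at hdeg
    right; right
    refine ⟨?_, ⟨(fun K => c '' K) '' (connectedComponentIn U '' U), Finite.image _ (FC_poly n G), ?_, ?_⟩,
      ?_⟩
    · intro t ht
      have := (hT1 ⟨t, ht, rfl⟩).2
      exact abs_le.mp (sq_le_one_iff_abs_le_one t |>.mp this)
    · rintro _ ⟨_, ⟨x, hx, rfl⟩, rfl⟩
      refine ⟨(isPreconnected_connectedComponentIn.image c ?_).ordConnected, hdeg x hx⟩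
      refine ContinuousOn.div (MvPolynomial.continuous_eval _).continuousOn
        (MvPolynomial.continuous_eval _).sqrt.continuousOn fun y hy => ?_
      exact (Real.sqrt_pos.mpr (hGp y (connectedComponentIn_subset _ _ hy))).ne'
    · ext t
      constructor
      · rintro ⟨_, ⟨_, ⟨x, hx, rfl⟩, rfl⟩, y, hy, rfl⟩
        exact ⟨y, connectedComponentIn_subset _ _ hy, rfl⟩
      · rintro ⟨y, hy, rfl⟩
        exact ⟨_, ⟨_, ⟨y, hy, rfl⟩, rfl⟩, y, mem_connectedComponentIn hy, rfl⟩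
    · rcases hend with h | h
      · exact ⟨β, Or.inl (h ▸ hI)⟩
      · exact ⟨α, Or.inr (h ▸ hI)⟩

noncomputable def PolyQ (n : ℕ) : Subalgebra ℝ ((Fin n → ℝ) → ℍ[ℝ]) where
  carrier := {F | ∃ A B C D : MvPolynomial (Fin n) ℝ, ∀ x, F x = ⟨MvPolynomial.eval x A,
    MvPolynomial.eval x B, MvPolynomial.eval x C, MvPolynomial.eval x D⟩}
  mul_mem' := by
    rintro F G ⟨A, B, C', D, h⟩ ⟨A', B', C'', D', h'⟩
    refine ⟨A * A' - B * B' - C' * C'' - D * D',
      A * B' + B * A' + (C' * D' - D * C''), A * C'' + C' * A' + (D * B' - B * D'),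
      A * D' + D * A' + B * C'' - C' * B', fun x => ?_⟩
    rw [Pi.mul_apply, h, h']
    ext <;> simp <;> ring
  add_mem' := by
    rintro F G ⟨A, B, C', D, h⟩ ⟨A', B', C'', D', h'⟩
    refine ⟨A + A', B + B', C' + C'', D + D', fun x => ?_⟩
    rw [Pi.add_apply, h, h']
    ext <;> simp
  algebraMap_mem' := fun r => ⟨MvPolynomial.C r, 0, 0, 0, fun x => by ext <;> simp⟩

def par {m : ℕ} (l : Fin m) (x : Fin (m * 4) → ℝ) : ℍ[ℝ] :=
  ⟨x (finProdFinEquiv (l, 0)), x (finProdFinEquiv (l, 1)), x (finProdFinEquiv (l, 2)),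
    x (finProdFinEquiv (l, 3))⟩

theorem par_surj {m : ℕ} (a : Fin m → ℍ[ℝ]) : ∃ x, (fun l => par l x) = a := by
  refine ⟨fun k => ![(a (finProdFinEquiv.symm k).1).re, (a (finProdFinEquiv.symm k).1).imI,
    (a (finProdFinEquiv.symm k).1).imJ, (a (finProdFinEquiv.symm k).1).imK]
      (finProdFinEquiv.symm k).2, funext fun l => ?_⟩
  simp only [par, Equiv.symm_apply_apply]
  rfl

theorem adm_ev {m : ℕ} (p : NC m) :
    Adm ((fun q : ℍ[ℝ] => q.re / ‖q‖) '' (range (ev (A := ℍ[ℝ]) p) \ {0})) := by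
  obtain ⟨A, B, C', D, e⟩ := ev_mem' (PolyQ (m * 4)) p par fun l =>
    ⟨MvPolynomial.X _, MvPolynomial.X _, MvPolynomial.X _, MvPolynomial.X _, fun x => by
      simp only [MvPolynomial.eval_X]; rfl⟩
  simp only at e
  have hn : ∀ x, MvPolynomial.eval x (A ^ 2 + (B ^ 2 + C' ^ 2 + D ^ 2))
      = ‖ev p (fun l => par l x)‖ ^ 2 := by
    intro x
    rw [sq ‖_‖, ← normSq_eq_norm_mul_self, normSq_def', e]
    simp [add_assoc]
  have := adm_abs A (B ^ 2 + C' ^ 2 + D ^ 2) (fun x => by simp; positivity) fun K hK x => by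
    rw [hn, parity p (K := K) fun a => ?_]
    · simp
    obtain ⟨y, rfl⟩ := par_surj a
    simpa [e] using hK y
  refine (congrArg Adm ?_).mp this
  ext t
  constructor
  · rintro ⟨x, hx, rfl⟩
    refine ⟨ev p (fun l => par l x), ⟨⟨_, rfl⟩, fun h => hx ?_⟩, ?_⟩
    · rw [hn, h]; simp
    · simp only [hn, Real.sqrt_sq (norm_nonneg _)]
      rw [e]
  · rintro ⟨_, ⟨⟨a, rfl⟩, h⟩, rfl⟩
    obtain ⟨x, rfl⟩ := par_surj a
    refine ⟨x, ?_, ?_⟩
    · rw [mem_ofPred_eq, hn]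
      exact pow_ne_zero _ (norm_ne_zero_iff.mpr h)
    · simp only [hn, Real.sqrt_sq (norm_nonneg _)]
      rw [e]

end Pool.Agent.H.MP_4e44b6_al
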