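import Mathlib

namespace Pool.Agent.H.MP_4e44b6_al

open Set Filter Topology Polynomial

theorem sign_poly {Z : Set ℝ} (hZ : Z.Finite) : ∀ s : ℝ → Bool, (∀ x ∉ Z, ContinuousAt s x) →
    ∃ π : ℝ[X], (∀ z ∈ Z, π.eval z = 0) ∧
      ∀ x ∉ Z, (s x = true → 0 < π.eval x) ∧ (s x = false → π.eval x < 0) := by
  induction Z, hZ using Set.Finite.induction_on with
  | empty =>
    intro s hs
    have hc : ∀ x, s x = s 0 := fun x => isPreconnected_univ.constant
      (fun y _ => (hs y (notMem_empty y)).continuousWithinAt) (mem_univ x) (mem_univ 0)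
    cases h : s 0
    · exact ⟨-1, by simp, fun x _ => by simp [hc x, h]⟩
    · exact ⟨1, by simp, fun x _ => by simp [hc x, h]⟩
  | @insert z Z hz hZ ih =>
    intro s hs
    obtain ⟨l, u, hlu, hsub⟩ := mem_nhds_iff_exists_Ioo_subset.mp
      (hZ.isClosed.isOpen_compl.mem_nhds hz)
    have cl : ∀ x ∈ Ioo l z, s x = s ((l + z) / 2) := fun x hx => isPreconnected_Ioo.constant
      (fun y hy => (hs y (by
        rintro (rfl | h)
        · exact lt_irrefl _ hy.2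
        · exact hsub ⟨hy.1, hy.2.trans hlu.2⟩ h)).continuousWithinAt) hx
      ⟨by linarith [hlu.1], by linarith [hlu.1]⟩
    have cr : ∀ x ∈ Ioo z u, s x = s ((z + u) / 2) := fun x hx => isPreconnected_Ioo.constant
      (fun y hy => (hs y (by
        rintro (rfl | h)
        · exact lt_irrefl _ hy.1
        · exact hsub ⟨hlu.1.trans hy.1, hy.2⟩ h)).continuousWithinAt) hx
      ⟨by linarith [hlu.2], by linarith [hlu.2]⟩
    generalize s ((l + z) / 2) = a at cl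
    generalize s ((z + u) / 2) = b at cr
    obtain ⟨π, h1, h2⟩ := ih
      (fun x => if x < z then s x else if x = z then a else xor (s x) (xor a b)) (by
        intro x hx
        rcases lt_trichotomy x z with h | rfl | h
        · refine (hs x (by simp [hx, h.ne])).congr ?_
          filter_upwards [Iio_mem_nhds h] with y hy
          simp [show y < z from hy]
        · refine (continuousAt_const (y := a)).congr ?_
          filter_upwards [Ioo_mem_nhds hlu.1 hlu.2] with y hy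
          rcases lt_trichotomy y x with h | rfl | h
          · simp [h, cl y ⟨hy.1, h⟩]
          · simp
          · simp only [h.not_gt, h.ne', if_false, cr y ⟨h, hy.2⟩]
            cases a <;> cases b <;> rfl
        · have : ContinuousAt (fun y => xor (s y) (xor a b)) x :=
            (continuous_of_discreteTopology (f := fun c => xor c (xor a b))).continuousAt.comp
              (hs x (by simp [hx, h.ne']))
          refine this.congr ?_
          filter_upwards [Ioi_mem_nhds h] with y hy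
          simp [(show z < y from hy).not_gt, (show z < y from hy).ne'])
    by_cases hab : a = b
    · refine ⟨π * (X - C z) ^ 2, ?_, fun x hx => ?_⟩
      · rintro x (rfl | hx)
        · simp
        · simp [h1 x hx]
      · rw [mem_insert_iff, not_or] at hx
        have p : 0 < (x - z) ^ 2 := by have := sub_ne_zero.mpr hx.1; positivity
        have := h2 x hx.2
        simp only [hab, hx.1, Bool.xor_self, Bool.xor_false, if_false, ite_self] at this
        simp only [eval_mul, eval_pow, eval_sub, eval_X, eval_C]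
        exact ⟨fun h => mul_pos (this.1 h) p, fun h => mul_neg_of_neg_of_pos (this.2 h) p⟩
    · refine ⟨π * (C z - X), ?_, fun x hx => ?_⟩
      · rintro x (rfl | hx)
        · simp
        · simp [h1 x hx]
      · rw [mem_insert_iff, not_or] at hx
        have := h2 x hx.2
        simp only [eval_mul, eval_sub, eval_X, eval_C]
        have e : xor a b = true := by cases a <;> cases b <;> simp_all
        rcases lt_or_gt_of_ne hx.1 with h | h
        · simp only [h, if_true] at this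
          exact ⟨fun h' => mul_pos (this.1 h') (sub_pos.mpr h),
            fun h' => mul_neg_of_neg_of_pos (this.2 h') (sub_pos.mpr h)⟩
        · simp only [h.not_gt, hx.1, if_false, e] at this
          exact ⟨fun h' => mul_pos_of_neg_of_neg (this.2 (by simp [h'])) (sub_neg.mpr h),
            fun h' => mul_neg_of_pos_of_neg (this.1 (by simp [h'])) (sub_neg.mpr h)⟩

theorem hermite {ι : Type} [Finite ι] (n a b c : ι → ℝ) (hn : Function.Injective n) :
    ∃ H : ℝ[X], ∀ i, H.eval (n i) = a i ∧ (derivative H).eval (n i) = b i ∧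
      (derivative (derivative H)).eval (n i) = c i := by
  obtain ⟨H, hH⟩ := Ideal.exists_forall_sub_mem_ideal
    (I := fun i => Ideal.span {(X - C (n i)) ^ 3}) (fun i j hij => by
      rw [Function.onFun, Ideal.isCoprime_span_singleton_iff]
      exact (pairwise_coprime_X_sub_C hn hij).pow)
    (fun i => C (a i) + C (b i) * (X - C (n i)) + C (c i / 2) * (X - C (n i)) ^ 2)
  refine ⟨H, fun i => ?_⟩
  obtain ⟨g, hg⟩ := Ideal.mem_span_singleton.mp (hH i)
  rw [sub_eq_iff_eq_add] at hg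
  rw [hg]
  refine ⟨by simp, by simp [derivative_pow], ?_⟩
  simp [derivative_pow]

theorem turn {Y : Set ℝ} (hY : Y.Finite) (h0 : ∀ y ∈ Y, 0 ≤ y) : ∃ H : ℝ[X], ∀ y ∈ Y,
    (∃ N, 0 < N ∧ (X * H ^ 4).eval N = y ∧ (0 < y → IsLocalMax (fun x => (X * H ^ 4).eval x) N)) ∧
    (∃ N, 0 < N ∧ (X * H ^ 4).eval N = y ∧ (0 < y → IsLocalMin (fun x => (X * H ^ 4).eval x) N)) := by
  have := hY.to_subtype
  obtain ⟨k, hk⟩ := exists_injective_nat (Y × Bool)
  set n : Y × Bool → ℝ := fun i => (k i : ℝ) + 1 with hn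
  have n0 : ∀ i, 0 < n i := fun i => by positivity
  set c : Y × Bool → ℝ := fun i => √√(i.1 / n i) with hc
  have c4 : ∀ i, n i * c i ^ 4 = i.1 := fun i => by
    have : c i ^ 4 = (c i ^ 2) ^ 2 := by ring
    rw [this, hc, Real.sq_sqrt (Real.sqrt_nonneg _), Real.sq_sqrt (div_nonneg (h0 _ i.1.2) (n0 i).le),
      mul_div_cancel₀ _ (n0 i).ne']
  obtain ⟨H, hH⟩ := hermite n c (fun i => -c i / (4 * n i))
    (fun i => if i.2 then 0 else c i / n i ^ 2) (fun i j h => hk (by simpa [hn] using h))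
  have d1 : deriv (fun x => (X * H ^ 4).eval x) = fun x => (derivative (X * H ^ 4)).eval x :=
    funext fun x => Polynomial.deriv _
  have e0 : ∀ i, (X * H ^ 4).eval (n i) = i.1 := fun i => by simp [(hH i).1, c4]
  have e1 : ∀ i, deriv (fun x => (X * H ^ 4).eval x) (n i) = 0 := fun i => by
    rw [d1]
    simp [derivative_pow, (hH i).1, (hH i).2.1]
    field_simp [(n0 i).ne']
    ring
  have e2 : ∀ i, deriv (deriv (fun x => (X * H ^ 4).eval x)) (n i)
      = (if i.2 then -5 / 4 else 11 / 4) * (c i ^ 4 / n i) := fun i => by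
    rw [d1, Polynomial.deriv]
    simp [derivative_pow, (hH i).1, (hH i).2.1, (hH i).2.2]
    have := (n0 i).ne'
    split_ifs <;> field_simp <;> ring
  have e3 : ∀ i : Y × Bool, 0 < (i.1 : ℝ) → 0 < c i ^ 4 / n i := fun i hi => by
    have h1 := c4 i
    have h2 := n0 i
    refine div_pos (pos_of_mul_pos_left (a := c i ^ 4) ?_ h2.le) h2
    linarith
  refine ⟨H, fun y hy => ⟨⟨n (⟨y, hy⟩, true), n0 _, e0 _, fun h => ?_⟩,
    ⟨n (⟨y, hy⟩, false), n0 _, e0 _, fun h => ?_⟩⟩⟩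
  · refine isLocalMax_of_deriv_deriv_neg ?_ (e1 _) (by fun_prop)
    have := e3 (⟨y, hy⟩, true) h
    rw [e2]; simp only [if_true]; linarith
  · refine isLocalMin_of_deriv_deriv_pos ?_ (e1 _) (by fun_prop)
    have := e3 (⟨y, hy⟩, false) h
    rw [e2]; simp only [Bool.false_eq_true, if_false]; linarith

theorem base_aux {κ β γ : ℝ} (hκ : 0 < κ) (hβ : β ^ 2 = 1) (hγ : γ = κ ^ 2 / (κ ^ 2 + (1 + β) ^ 2))
    {E : Set ℝ} (hE : E.Finite) : ∃ P Q : ℝ[X], ∃ Ψ : ℝ → ℝ, (∀ N, 0 ≤ P.eval N) ∧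
      (β = 1 → ∀ N, 0 < N → 0 ≤ Q.eval N) ∧
      (∀ N, 0 < N → 0 < N * P.eval N ^ 2 + Q.eval N ^ 2) ∧
      (∀ N, Ψ N = N * P.eval N ^ 2 / (N * P.eval N ^ 2 + Q.eval N ^ 2)) ∧
      (∀ N, 0 < N → Ψ N ∈ Icc 0 γ) ∧ (∀ e, {N | 0 < N ∧ Ψ N = e}.Finite) ∧
      (∀ t ∈ Icc 0 γ, ∃ N, 0 < N ∧ Ψ N = t) ∧
      ∀ e ∈ E, e ∈ Icc 0 γ → (0 < e → ∃ N, 0 < N ∧ Ψ N = e ∧ ∀ᶠ x in 𝓝 N, Ψ x ≤ e) ∧
        (e < γ → ∃ N, 0 < N ∧ Ψ N = e ∧ ∀ᶠ x in 𝓝 N, e ≤ Ψ x) := by
  set Φ : ℝ → ℝ := fun y => κ ^ 2 * y / (κ ^ 2 * y + (1 + β * y) ^ 2) with hΦ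
  have D0 : ∀ y : ℝ, 0 ≤ y → 0 < κ ^ 2 * y + (1 + β * y) ^ 2 := by
    intro y hy
    rcases hy.eq_or_lt with rfl | hy
    · simp
    · positivity
  have Φ0 : Φ 0 = 0 := by simp [hΦ]
  have Φ1 : Φ 1 = γ := by simp [hΦ, hγ]
  have γ0 : 0 < γ := by rw [hγ]; positivity
  have Φc : ∀ y, 0 ≤ y → ContinuousAt Φ y := fun y hy =>
    ContinuousAt.div (by fun_prop) (by fun_prop) (D0 y hy).ne'
  have mono : ∀ y z : ℝ, 0 ≤ y → y ≤ z → y * z ≤ 1 → Φ y ≤ Φ z := by
    intro y z hy hyz h1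
    rw [hΦ, div_le_div_iff₀ (D0 y hy) (D0 z (hy.trans hyz))]
    have : 0 ≤ κ ^ 2 * ((z - y) * (1 - y * z)) :=
      mul_nonneg (sq_nonneg _) (mul_nonneg (sub_nonneg.mpr hyz) (sub_nonneg.mpr h1))
    have e : κ ^ 2 * z * (κ ^ 2 * y + (1 + β * y) ^ 2) - κ ^ 2 * y * (κ ^ 2 * z + (1 + β * z) ^ 2)
        = κ ^ 2 * ((z - y) * (1 - β ^ 2 * (y * z))) := by ring
    rw [hβ, one_mul] at e
    linarith
  have Φr : ∀ y, 0 ≤ y → Φ y ∈ Icc 0 γ := by
    intro y hy
    refine ⟨div_nonneg (by positivity) (D0 y hy).le, ?_⟩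
    rw [← Φ1, hΦ, div_le_div_iff₀ (D0 y hy) (D0 1 zero_le_one)]
    have : 0 ≤ κ ^ 2 * (1 - y) ^ 2 := by positivity
    have e : κ ^ 2 * 1 * (κ ^ 2 * y + (1 + β * y) ^ 2) - κ ^ 2 * y * (κ ^ 2 * 1 + (1 + β * 1) ^ 2)
        = κ ^ 2 * ((1 - y) * (1 - β ^ 2 * y)) := by ring
    rw [hβ, one_mul] at e
    nlinarith
  have surj : ∀ e, ∃ y ∈ Icc (0 : ℝ) 1, e ∈ Icc 0 γ → Φ y = e := by
    intro e
    by_cases he : e ∈ Icc 0 γ
    · obtain ⟨y, hy, e'⟩ := intermediate_value_Icc zero_le_one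
        (fun y hy => (Φc y hy.1).continuousWithinAt) (by rwa [Φ0, Φ1])
      exact ⟨y, hy, fun _ => e'⟩
    · exact ⟨0, by simp, fun h => absurd h he⟩
  choose yy hy1 hy2 using surj
  obtain ⟨H, hH⟩ := turn (Y := insert 0 (insert 1 (yy '' E))) (((hE.image _).insert _).insert _) (by
    rintro _ (rfl | rfl | ⟨e, -, rfl⟩)
    · exact le_rfl
    · exact zero_le_one
    · exact (hy1 e).1)
  set y : ℝ → ℝ := fun x => (X * H ^ 4).eval x with hy
  have yc : Continuous y := by fun_prop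
  have y0 : ∀ N, 0 < N → 0 ≤ y N := fun N hN => by simp only [hy, eval_mul, eval_X, eval_pow]; positivity
  have e1 : ∀ N, N * (C κ * H ^ 2).eval N ^ 2 = κ ^ 2 * y N := fun N => by simp [hy]; ring
  have e2 : ∀ N, (1 + C β * (X * H ^ 4)).eval N = 1 + β * y N := fun N => by simp [hy]
  obtain ⟨N₀, hN₀, f₀, -⟩ := (hH 0 (by simp)).1
  obtain ⟨N₁, hN₁, f₁, -⟩ := (hH 1 (by simp)).1
  change y N₀ = 0 at f₀
  change y N₁ = 1 at f₁
  refine ⟨C κ * H ^ 2, 1 + C β * (X * H ^ 4), fun N => Φ (y N), fun N => ?_, ?_, fun N hN => ?_,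
    fun N => by rw [e1, e2], fun N hN => Φr _ (y0 N hN), fun e => ?_, fun t ht => ?_,
    fun e he he' => ⟨fun h => ?_, fun h => ?_⟩⟩
  · simp only [eval_mul, eval_C, eval_pow]; positivity
  · rintro rfl N hN
    rw [e2]; have := y0 N hN; linarith
  · rw [e1, e2]; exact D0 _ (y0 N hN)
  · set R := X * (C κ * H ^ 2) ^ 2 - C e * (X * (C κ * H ^ 2) ^ 2 + (1 + C β * (X * H ^ 4)) ^ 2)
      with hR
    have eR : ∀ N, R.eval N = κ ^ 2 * y N - e * (κ ^ 2 * y N + (1 + β * y N) ^ 2) := fun N => by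
      rw [← e1, ← e2]; simp [hR]
    refine (R.finite_setOfPred_isRoot fun h => ?_).subset fun N hN => ?_
    · have a0 := eR N₀
      have a1 := eR N₁
      rw [h, eval_zero] at a0 a1
      rw [f₀] at a0
      rw [f₁] at a1
      have : e = 0 := by simpa using a0
      rw [this] at a1
      nlinarith
    · change R.eval N = 0
      have := hN.2
      rw [hΦ, div_eq_iff (D0 _ (y0 N hN.1)).ne'] at this
      rw [eR]; linarith
  · obtain ⟨N, hN, e'⟩ := intermediate_value_uIcc (a := N₀) (b := N₁) yc.continuousOn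
      (show yy t ∈ _ by rw [f₀, f₁, uIcc_of_le zero_le_one]; exact hy1 t)
    exact ⟨N, (lt_min hN₀ hN₁).trans_le hN.1, show Φ (y N) = t by rw [e', hy2 t ht]⟩
  · obtain ⟨N, hN, f, g⟩ := (hH (yy e) (by simp [he, mem_image_of_mem yy he])).1
    change y N = yy e at f
    have p : 0 < yy e := (hy1 e).1.lt_of_ne fun h' => h.ne' (by rw [← hy2 e he', ← h', Φ0])
    refine ⟨N, hN, show Φ (y N) = e by rw [f, hy2 e he'], ?_⟩
    filter_upwards [g p, Ioi_mem_nhds hN] with x hx hx0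
    change y x ≤ y N at hx
    rw [f] at hx
    rw [← hy2 e he']
    exact mono _ _ (y0 x hx0) hx (by nlinarith [y0 x hx0, (hy1 e).2])
  · obtain ⟨N, hN, f, g⟩ := (hH (yy e) (by simp [he, mem_image_of_mem yy he])).2
    change y N = yy e at f
    have p : yy e < 1 := (hy1 e).2.lt_of_ne fun h' => h.ne (by rw [← hy2 e he', h', Φ1])
    refine ⟨N, hN, show Φ (y N) = e by rw [f, hy2 e he'], ?_⟩
    rcases (hy1 e).1.eq_or_lt with h0 | h0
    · filter_upwards [Ioi_mem_nhds hN] with x hx0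
      rw [← hy2 e he', ← h0, Φ0]
      exact (Φr _ (y0 x hx0)).1
    · filter_upwards [g h0, yc.continuousAt.eventually (gt_mem_nhds (f ▸ p : y N < 1))] with x hx hx1
      change y N ≤ y x at hx
      rw [f] at hx
      rw [← hy2 e he']
      exact mono _ _ h0.le hx (by nlinarith)

/-- base families: polynomials `A, B` with `c = A / √(A² + B² N) ≥ 0` running through `J`. -/
theorem base {J : Set ℝ} {γ : ℝ} (hJ : (0 < γ ∧ γ ≤ 1 ∧ J = Icc 0 γ) ∨ (0 < γ ∧ γ < 1 ∧ J = Icc γ 1))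
    {E : Set ℝ} (hE : E.Finite) : ∃ A B : ℝ[X], ∃ τ : ℝ → ℝ, (∀ N, 0 < N → 0 ≤ A.eval N) ∧
      (∀ N, 0 < N → 0 < A.eval N ^ 2 + B.eval N ^ 2 * N) ∧
      (∀ N, 0 < N → τ N = A.eval N ^ 2 / (A.eval N ^ 2 + B.eval N ^ 2 * N)) ∧
      (∀ N, 0 < N → τ N ∈ J) ∧ (∀ e, {N | 0 < N ∧ τ N = e}.Finite) ∧
      (∀ t ∈ J, ∃ N, 0 < N ∧ τ N = t) ∧
      ∀ e ∈ E, e ∈ J → ∀ t ∈ J, (t < e → ∃ N, 0 < N ∧ τ N = e ∧ ∀ᶠ x in 𝓝 N, τ x ≤ e) ∧
        (e < t → ∃ N, 0 < N ∧ τ N = e ∧ ∀ᶠ x in 𝓝 N, e ≤ τ x) := by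
  have par : ∀ g : ℝ, 0 < g → g < 1 → ∃ κ : ℝ, 0 < κ ∧ g = κ ^ 2 / (κ ^ 2 + (1 + 1) ^ 2) := by
    intro g g0 g1
    have : 0 < 1 - g := sub_pos.mpr g1
    refine ⟨√(4 * g / (1 - g)), by positivity, ?_⟩
    rw [Real.sq_sqrt (by positivity)]
    field_simp
    ring
  rcases hJ with ⟨g0, g1, rfl⟩ | ⟨g0, g1, rfl⟩
  · obtain ⟨κ, β, hκ, hβ, hγ⟩ : ∃ κ β : ℝ, 0 < κ ∧ β ^ 2 = 1 ∧ γ = κ ^ 2 / (κ ^ 2 + (1 + β) ^ 2) := by
      rcases g1.eq_or_lt with rfl | g1
      · exact ⟨1, -1, one_pos, by norm_num, by norm_num⟩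
      · obtain ⟨κ, h1, h2⟩ := par γ g0 g1
        exact ⟨κ, 1, h1, by norm_num, h2⟩
    obtain ⟨P, Q, Ψ, p1, -, p3, p4, p5, p6, p7, p8⟩ := base_aux hκ hβ hγ hE
    have e : ∀ N, (X * P).eval N ^ 2 + Q.eval N ^ 2 * N = N * (N * P.eval N ^ 2 + Q.eval N ^ 2) :=
      fun N => by simp; ring
    refine ⟨X * P, Q, Ψ, fun N hN => ?_, fun N hN => ?_, fun N hN => ?_, p5, p6, p7,
      fun e he he' t ht => ⟨fun h => (p8 e he he').1 (ht.1.trans_lt h),
        fun h => (p8 e he he').2 (h.trans_le ht.2)⟩⟩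
    · rw [eval_mul, eval_X]; exact mul_nonneg hN.le (p1 N)
    · rw [e]; exact mul_pos hN (p3 N hN)
    · rw [e, p4, ← mul_div_mul_left _ _ hN.ne']; congr 1; simp; ring
  · obtain ⟨κ, hκ, hγ⟩ := par (1 - γ) (sub_pos.mpr g1) (by linarith)
    obtain ⟨P, Q, Ψ, -, p2, p3, p4, p5, p6, p7, p8⟩ :=
      base_aux (β := 1) hκ (by norm_num) hγ (hE.image (fun e => 1 - e))
    refine ⟨Q, P, fun N => 1 - Ψ N, p2 rfl, fun N hN => by have := p3 N hN; linarith,
      fun N hN => ?_, fun N hN => ?_, fun e => ?_, fun t ht => ?_, fun e he he' t ht => ?_⟩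
    · have := (p3 N hN).ne'
      change 1 - Ψ N = _
      rw [p4, show Q.eval N ^ 2 + P.eval N ^ 2 * N = N * P.eval N ^ 2 + Q.eval N ^ 2 by ring]
      field_simp
      ring
    · have := p5 N hN
      exact ⟨by linarith [this.2], by linarith [this.1]⟩
    · exact (p6 (1 - e)).subset fun N hN => ⟨hN.1, by linarith [hN.2]⟩
    · obtain ⟨N, hN, e⟩ := p7 (1 - t) ⟨by linarith [ht.2], by linarith [ht.1]⟩
      exact ⟨N, hN, by linarith⟩
    · have q := p8 (1 - e) ⟨e, he, rfl⟩ ⟨by linarith [he'.2], by linarith [he'.1]⟩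
      constructor
      · intro h
        obtain ⟨N, hN, f, g⟩ := q.2 (by linarith [ht.1])
        exact ⟨N, hN, by linarith, g.mono fun x hx => by linarith⟩
      · intro h
        obtain ⟨N, hN, f, g⟩ := q.1 (by linarith [ht.2])
        exact ⟨N, hN, by linarith, g.mono fun x hx => by linarith⟩

end Pool.Agent.H.MP_4e44b6_al
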