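import Pool.Agent.H.MP_4e44b6_al.E
import Pool.Agent.H.MP_4e44b6_al.F

namespace Pool.Agent.H.MP_4e44b6_al

open Set Filter Topology Polynomial

theorem loc_const {F : Set (Set ℝ)} (hF : F.Finite) (h : ∀ I ∈ F, I.OrdConnected)
    (hb : ⋃₀ F ⊆ Icc (-1) 1) : ∃ E₀ : Set ℝ, E₀.Finite ∧
      ∀ x ∉ E₀, ∀ᶠ y in 𝓝 x, (y ∈ ⋃₀ F ↔ x ∈ ⋃₀ F) := by
  refine ⟨sInf '' F ∪ sSup '' F, (hF.image _).union (hF.image _), fun x hx => ?_⟩
  have key : ∀ I ∈ F, ∀ᶠ y in 𝓝 x, (y ∈ I ↔ x ∈ I) := by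
    intro I hI
    have h1 : x ≠ sInf I := fun e => hx (Or.inl ⟨I, hI, e.symm⟩)
    have h2 : x ≠ sSup I := fun e => hx (Or.inr ⟨I, hI, e.symm⟩)
    have hs : I ⊆ Icc (-1) 1 := (subset_sUnion_of_mem hI).trans hb
    have b1 : BddBelow I := bddBelow_Icc.mono hs
    have b2 : BddAbove I := bddAbove_Icc.mono hs
    rcases I.eq_empty_or_nonempty with rfl | hne
    · simp
    have s1 : Ioo (sInf I) (sSup I) ⊆ I :=
      IsConnected.Ioo_csInf_csSup_subset ⟨hne, (h I hI).isPreconnected⟩ b1 b2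
    have s2 : I ⊆ Icc (sInf I) (sSup I) := subset_Icc_csInf_csSup b1 b2
    by_cases hm : x ∈ Icc (sInf I) (sSup I)
    · have hm' : x ∈ Ioo (sInf I) (sSup I) := ⟨hm.1.lt_of_ne' h1, hm.2.lt_of_ne h2⟩
      filter_upwards [isOpen_Ioo.mem_nhds hm'] with y hy
      exact iff_of_true (s1 hy) (s1 hm')
    · filter_upwards [isClosed_Icc.isOpen_compl.mem_nhds hm] with y hy
      exact iff_of_false (fun e => hy (s2 e)) fun e => hm (s2 e)
  filter_upwards [(eventually_all_finite hF).mpr key] with y hy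
  exact ⟨fun ⟨I, hI, e⟩ => ⟨I, hI, (hy I hI).mp e⟩, fun ⟨I, hI, e⟩ => ⟨I, hI, (hy I hI).mpr e⟩⟩

theorem pattern {c : ℝ → ℝ} (hc : ∀ N, 0 < N → ContinuousAt c N) {S E : Set ℝ} (hE : E.Finite)
    (hfin : ∀ e, {N | 0 < N ∧ c N ^ 2 = e}.Finite)
    (hloc : ∀ x, x ^ 2 ∉ E → ∀ᶠ y in 𝓝 x, (y ∈ S ↔ x ∈ S)) :
    ∃ γ : ℝ[X], γ.eval 0 = 0 ∧ ∀ N, 0 < N → (0 < γ.eval N → c N ∈ S) ∧
      (γ.eval N < 0 → c N ∉ S ∧ c N ^ 2 ∉ E) ∧ ((∀ᶠ x in 𝓝 N, c x ∈ S) → 0 < γ.eval N) := by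
  classical
  set Z := insert 0 {N | 0 < N ∧ c N ^ 2 ∈ E ∧ ¬ ∀ᶠ x in 𝓝 N, c x ∈ S} with hZ
  have hZf : Z.Finite := by
    refine Finite.insert _ ((hE.biUnion fun e _ => hfin e).subset fun N hN => ?_)
    simp only [mem_iUnion]
    exact ⟨_, hN.2.1, hN.1, rfl⟩
  obtain ⟨γ, h1, h2⟩ := sign_poly hZf (fun N => decide (0 < N ∧ c N ∈ S)) (by
    intro N hN
    rw [hZ, mem_insert_iff, not_or] at hN
    refine (continuousAt_const (y := decide (0 < N ∧ c N ∈ S))).congr ?_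
    rcases lt_or_gt_of_ne hN.1 with h | h
    · filter_upwards [Iio_mem_nhds h] with y hy
      simp [h.not_gt, (show y < 0 from hy).not_gt]
    · by_cases he : c N ^ 2 ∈ E
      · have : ∀ᶠ x in 𝓝 N, c x ∈ S := by_contra fun h' => hN.2 ⟨h, he, h'⟩
        filter_upwards [Ioi_mem_nhds h, this] with y hy hy'
        simp [h, show 0 < y from hy, hy', this.self_of_nhds]
      · filter_upwards [Ioi_mem_nhds h, (hc N h).eventually (hloc _ he)] with y hy hy'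
        simp [h, show 0 < y from hy, hy'])
  refine ⟨γ, h1 0 (mem_insert _ _), fun N hN => ?_⟩
  by_cases hz : N ∈ Z
  · refine ⟨fun h => absurd (h1 N hz) h.ne', fun h => absurd (h1 N hz) h.ne, fun h => ?_⟩
    rcases hz with hz | hz
    · exact absurd hz hN.ne'
    · exact absurd h hz.2.2
  have h3 := h2 N hz
  simp only [hN, true_and, decide_eq_true_eq, decide_eq_false_iff_not] at h3
  refine ⟨fun h => by_contra fun h' => lt_asymm h (h3.2 h'), fun h => ?_,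
    fun h => h3.1 h.self_of_nhds⟩
  have h4 : c N ∉ S := fun h' => lt_asymm h (h3.1 h')
  exact ⟨h4, fun he => hz (Or.inr ⟨hN, he, fun h' => h4 h'.self_of_nhds⟩)⟩

/-- data realising a set of cosines -/
def Real4 (S : Set ℝ) : Prop := ∃ γ₁ γ₂ A B : ℝ[X],
  (∀ N, 0 ≤ N → A.eval N ^ 2 + B.eval N ^ 2 * N ≠ 0 →
    ((0 < γ₁.eval N ∨ 0 < γ₂.eval N) → A.eval N / √(A.eval N ^ 2 + B.eval N ^ 2 * N) ∈ S) ∧
    ((γ₁.eval N < 0 ∨ γ₂.eval N < 0) → -(A.eval N / √(A.eval N ^ 2 + B.eval N ^ 2 * N)) ∈ S)) ∧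
  ∀ c ∈ S, ∃ N, 0 ≤ N ∧ A.eval N ^ 2 + B.eval N ^ 2 * N ≠ 0 ∧
    (((0 < γ₁.eval N ∨ 0 < γ₂.eval N) ∧ A.eval N / √(A.eval N ^ 2 + B.eval N ^ 2 * N) = c) ∨
    ((γ₁.eval N < 0 ∨ γ₂.eval N < 0) ∧ -(A.eval N / √(A.eval N ^ 2 + B.eval N ^ 2 * N)) = c))

theorem real4_gen {F : Set (Set ℝ)} (hF : F.Finite) (h : ∀ I ∈ F, I.OrdConnected ∧ I.Nontrivial)
    (hb : ⋃₀ F ⊆ Icc (-1) 1) {γ : ℝ}
    (hJ : (0 < γ ∧ γ ≤ 1 ∧ closure ((· ^ 2) '' ⋃₀ F) = Icc 0 γ) ∨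
      (0 < γ ∧ γ < 1 ∧ closure ((· ^ 2) '' ⋃₀ F) = Icc γ 1)) : Real4 (⋃₀ F) := by
  obtain ⟨E₀, hE₀, hloc⟩ := loc_const hF (fun I hI => (h I hI).1) hb
  set S := ⋃₀ F with hS
  set J := closure ((· ^ 2) '' S) with hJd
  set E := (· ^ 2) '' E₀ with hE
  have hEf : E.Finite := hE₀.image _
  obtain ⟨A, B, τ, p1, p2, p3, p4, p5, p6, p7⟩ := base hJ hEf
  set c := fun N => A.eval N / √(A.eval N ^ 2 + B.eval N ^ 2 * N) with hc
  have c0 : ∀ N, 0 < N → 0 ≤ c N := fun N hN => div_nonneg (p1 N hN) (Real.sqrt_nonneg _)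
  have c2 : ∀ N, 0 < N → c N ^ 2 = τ N := fun N hN => by
    rw [hc, div_pow, Real.sq_sqrt (p2 N hN).le, p3 N hN]
  have cc : ∀ N, 0 < N → ContinuousAt c N := fun N hN =>
    ContinuousAt.div (by fun_prop) (by fun_prop) (Real.sqrt_pos.mpr (p2 N hN)).ne'
  have l1 : ∀ x, x ^ 2 ∉ E → ∀ᶠ y in 𝓝 x, (y ∈ S ↔ x ∈ S) := fun x hx =>
    hloc x fun e => hx ⟨x, e, rfl⟩
  have l2 : ∀ x, x ^ 2 ∉ E → ∀ᶠ y in 𝓝 x, (y ∈ {z | -z ∈ S} ↔ x ∈ {z | -z ∈ S}) := fun x hx =>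
    continuous_neg.continuousAt.eventually (l1 (-x) (by rwa [neg_sq]))
  have fin : ∀ e, {N | 0 < N ∧ c N ^ 2 = e}.Finite := fun e =>
    (p5 e).subset fun N hN => ⟨hN.1, (c2 N hN.1).symm.trans hN.2⟩
  have e2 : ∀ x, 0 ≤ x → x ^ 2 ∈ J → x ^ 2 ∉ E → x ∈ S ∨ -x ∈ S := by
    intro x hx hxJ hxE
    by_contra hn
    rw [not_or] at hn
    have t : Tendsto Real.sqrt (𝓝 (x ^ 2)) (𝓝 x) := by
      have := Real.continuous_sqrt.tendsto (x ^ 2)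
      rwa [Real.sqrt_sq hx] at this
    obtain ⟨_, ⟨a, b⟩, z, hz, rfl⟩ := mem_closure_iff_nhds.mp hxJ _
      ((t.eventually (l1 x hxE)).and (t.eventually (l2 x hxE)))
    simp only [Real.sqrt_sq_eq_abs, mem_ofPred_eq] at a b
    rcases abs_choice z with e | e
    · exact hn.1 (a.mp (e.symm ▸ hz))
    · exact hn.2 (b.mp (by rwa [e, neg_neg]))
  have cover : ∀ S' : Set ℝ, (∀ z ∈ S', z ^ 2 ∈ J) →
      (∀ x, x ^ 2 ∉ E → ∀ᶠ y in 𝓝 x, (y ∈ S' ↔ x ∈ S')) → ∀ a₀ a₁ : ℝ, 0 ≤ a₀ → a₁ ≠ a₀ →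
      (a₀ = 0 → 0 < a₁) → uIcc a₀ a₁ ⊆ S' → ∃ N, 0 < N ∧ c N = a₀ ∧ ∀ᶠ x in 𝓝 N, c x ∈ S' := by
    intro S' hS' hl a₀ a₁ h0 hne h1 hsub
    have m0 : a₀ ∈ S' := hsub left_mem_uIcc
    have root : ∀ N, 0 < N → τ N = a₀ ^ 2 → c N = a₀ := fun N hN e =>
      (pow_left_inj₀ (c0 N hN) h0 two_ne_zero).mp ((c2 N hN).trans e)
    by_cases he : a₀ ^ 2 ∈ E
    swap
    · obtain ⟨N, hN, e⟩ := p6 _ (hS' _ m0)
      refine ⟨N, hN, root N hN e, ?_⟩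
      have := (cc N hN).eventually (hl (c N) (by rwa [root N hN e]))
      exact this.mono fun x hx => hx.mpr (by rwa [root N hN e])
    rcases lt_or_gt_of_ne hne with hlt | hlt
    · have a0 : 0 < a₀ := h0.lt_of_ne' fun e => lt_asymm (h1 e) (e ▸ hlt)
      have m1 : max a₁ 0 ∈ S' := hsub (by
        rw [uIcc_of_ge hlt.le]; exact ⟨le_max_left _ _, max_le hlt.le h0⟩)
      obtain ⟨N, hN, e, g⟩ := (p7 _ he (hS' _ m0) _ (hS' _ m1)).1
        (pow_lt_pow_left₀ (max_lt hlt a0) (le_max_right _ _) two_ne_zero)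
      refine ⟨N, hN, root N hN e, ?_⟩
      filter_upwards [g, Ioi_mem_nhds hN,
        (cc N hN).eventually (lt_mem_nhds (show a₁ < c N by rwa [root N hN e]))] with x hx hx0 hx1
      refine hsub ?_
      rw [uIcc_of_ge hlt.le]
      rw [← c2 x hx0] at hx
      exact ⟨hx1.le, (pow_le_pow_iff_left₀ (c0 x hx0) h0 two_ne_zero).mp hx⟩
    · obtain ⟨N, hN, e, g⟩ := (p7 _ he (hS' _ m0) _ (hS' _ (hsub right_mem_uIcc))).2
        (pow_lt_pow_left₀ hlt h0 two_ne_zero)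
      refine ⟨N, hN, root N hN e, ?_⟩
      filter_upwards [g, Ioi_mem_nhds hN,
        (cc N hN).eventually (gt_mem_nhds (show c N < a₁ by rwa [root N hN e]))] with x hx hx0 hx1
      refine hsub ?_
      rw [uIcc_of_le hlt.le]
      rw [← c2 x hx0] at hx
      exact ⟨(pow_le_pow_iff_left₀ h0 (c0 x hx0) two_ne_zero).mp hx, hx1.le⟩
  obtain ⟨γ₁, z₁, q₁⟩ := pattern cc hEf fin l1
  obtain ⟨γ₂, z₂, q₂⟩ := pattern cc hEf fin l2
  refine ⟨γ₁, -γ₂, A, B, fun N hN _ => ?_, fun x hx => ?_⟩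
  · rcases hN.eq_or_lt with rfl | hN
    · simp [z₁, z₂]
    have k := e2 (c N) (c0 N hN) (c2 N hN ▸ p4 N hN)
    simp only [eval_neg, neg_pos, neg_lt_zero]
    refine ⟨?_, ?_⟩
    · rintro (h' | h')
      · exact (q₁ N hN).1 h'
      · exact (k ((q₂ N hN).2.1 h').2).resolve_right ((q₂ N hN).2.1 h').1
    · rintro (h' | h')
      · exact (k ((q₁ N hN).2.1 h').2).resolve_left ((q₁ N hN).2.1 h').1
      · exact (q₂ N hN).1 h'
  · obtain ⟨I, hI, hxI⟩ := hx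
    obtain ⟨y, hy, hyx⟩ := (h I hI).2.exists_ne x
    have hsub : uIcc x y ⊆ S := ((h I hI).1.uIcc_subset hxI hy).trans (subset_sUnion_of_mem hI)
    by_cases hs : 0 < x ∨ (x = 0 ∧ 0 < y)
    · obtain ⟨N, hN, e, g⟩ := cover S (fun z hz => subset_closure ⟨z, hz, rfl⟩) l1 x y
        (hs.elim le_of_lt fun h => h.1.ge) hyx
        (fun e => hs.elim (fun h => absurd e h.ne') fun h => h.2) hsub
      exact ⟨N, hN.le, (p2 N hN).ne', Or.inl ⟨Or.inl ((q₁ N hN).2.2 g), e⟩⟩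
    · push Not at hs
      obtain ⟨N, hN, e, g⟩ := cover {z | -z ∈ S}
        (fun z hz => subset_closure ⟨-z, hz, neg_sq z⟩) l2 (-x) (-y) (by linarith [hs.1])
        (fun e => hyx (neg_injective e))
        (fun e => by
          have e' : x = 0 := neg_eq_zero.mp e
          exact neg_pos.mpr ((hs.2 e').lt_of_ne (e' ▸ hyx)))
        (fun z hz => hsub (by
          rw [mem_uIcc] at hz ⊢
          rcases hz with hz | hz
          · right; constructor <;> linarith [hz.1, hz.2]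
          · left; constructor <;> linarith [hz.1, hz.2]))
      refine ⟨N, hN.le, (p2 N hN).ne', Or.inr ⟨Or.inr ?_, ?_⟩⟩
      · simpa using (q₂ N hN).2.2 g
      · change -c N = x
        rw [e, neg_neg]

theorem real4 {S : Set ℝ} (h : Adm S) : Real4 S := by
  classical
  have h1 : ∀ S : Set ℝ, S ⊆ {-1, 1} → Real4 S := by
    intro S h
    refine ⟨if 1 ∈ S then 1 else 0, if -1 ∈ S then -1 else 0, 1, 0, fun N _ _ => ?_,
      fun c hc => ⟨0, le_rfl, by simp, ?_⟩⟩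
    · split_ifs <;> simp [*]
    · rcases h hc with rfl | rfl
      · simp [hc]
      · simp [hc]
  rcases h with h | rfl | ⟨hb, ⟨F, hF, h, rfl⟩, γ, hγ⟩
  · exact h1 S h
  · exact ⟨1, 0, 0, 1, fun N _ _ => by simp, fun c hc => ⟨1, zero_le_one, by simp, Or.inl (by
      simpa [eq_comm] using hc)⟩⟩
  rcases F.eq_empty_or_nonempty with rfl | ⟨I, hI⟩
  · exact h1 _ (by simp)
  obtain ⟨a, ha, b, hb', hab⟩ := (h I hI).2
  have hT : closure ((· ^ 2) '' ⋃₀ F) ⊆ Icc 0 1 := closure_minimal (by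
    rintro _ ⟨z, hz, rfl⟩
    exact ⟨sq_nonneg z, (sq_le_one_iff_abs_le_one z).mpr (abs_le.mpr (hb hz))⟩) isClosed_Icc
  have m : ∀ z ∈ I, z ^ 2 ∈ closure ((· ^ 2) '' ⋃₀ F) := fun z hz =>
    subset_closure ⟨z, ⟨I, hI, hz⟩, rfl⟩
  have mid : (a + b) / 2 ∈ I := (h I hI).1.uIcc_subset ha hb' (by
    rw [mem_uIcc]
    rcases le_total a b with h | h
    · left; constructor <;> linarith
    · right; constructor <;> linarith)
  have p : 0 < (a - b) ^ 2 := by have := sub_ne_zero.mpr hab; positivity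
  rcases hγ with hγ | hγ
  · have ma := m a ha
    have mb := m b hb'
    rw [hγ] at ma mb hT
    have g0 : 0 < γ := by nlinarith [ma.2, mb.2, sq_nonneg (a + b)]
    exact real4_gen hF h hb (Or.inl ⟨g0, (hT (right_mem_Icc.mpr g0.le)).2, hγ⟩)
  · have ma := hT (m a ha)
    have mb := hT (m b hb')
    have mc := m _ mid
    rw [hγ] at mc hT
    have g1 : γ < 1 := by nlinarith [ma.2, mb.2, mc.1]
    rcases (hT (left_mem_Icc.mpr g1.le)).1.eq_or_lt with rfl | g0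
    · exact real4_gen hF h hb (Or.inl ⟨one_pos, le_rfl, hγ⟩)
    · exact real4_gen hF h hb (Or.inr ⟨g0, g1, hγ⟩)

end Pool.Agent.H.MP_4e44b6_al
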