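import Pool.Agent.H.MP_4e44b6_al.G

namespace Pool.Agent.H.MP_4e44b6_al

open Set Filter Topology Polynomial Quaternion

variable {m : ℕ} {w : Fin m → ℕ}

theorem Hom.add {d : ℤ} {p q : NC m} (hp : Hom w d p) (hq : Hom w d q) : Hom w d (p + q) := by
  classical
  intro u hu
  rw [MonoidAlgebra.coeff_add] at hu
  rcases Finset.mem_union.mp (Finsupp.support_add hu) with h | h
  · exact hp u h
  · exact hq u h

theorem Hom.neg {d : ℤ} {p : NC m} (hp : Hom w d p) : Hom w d (-p) := by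
  intro u hu
  rw [MonoidAlgebra.coeff_neg, Finsupp.support_neg] at hu
  exact hp u hu

theorem Hom.mul {d e : ℤ} {p q : NC m} (hp : Hom w d p) (hq : Hom w e q) :
    Hom w (d + e) (p * q) := by
  classical
  intro u hu
  obtain ⟨a, ha, b, hb, rfl⟩ := Finset.mem_mul.mp (MonoidAlgebra.support_coeff_mul_subset p q hu)
  rw [wt_mul, Nat.cast_add, hp a ha, hq b hb]

theorem Hom.single (u : FreeMonoid (Fin m)) (r : ℝ) :
    Hom w (wt w u) (MonoidAlgebra.single u r) := by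
  intro v hv
  rw [Finset.mem_singleton.mp (Finsupp.support_single_subset hv)]

noncomputable def xv (i : Fin m) : NC m := MonoidAlgebra.single (FreeMonoid.of i) 1

theorem Hom.xv (i : Fin m) : Hom w (w i) (xv i) := by
  simpa [wt, MP_4e44b6_al.xv] using Hom.single (w := w) (FreeMonoid.of i) 1

noncomputable def H0 (w : Fin m → ℕ) : Subalgebra ℝ (NC m) where
  carrier := {p | Hom w 0 p}
  mul_mem' hp hq := by simpa using Hom.mul hp hq
  add_mem' := Hom.add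
  algebraMap_mem' r := by simpa [wt] using Hom.single (w := w) 1 r

theorem Hom.aeval {p : NC m} (hp : Hom w 0 p) (f : ℝ[X]) : Hom w 0 (aeval p f) :=
  (Algebra.adjoin_le (S := H0 w) (singleton_subset_iff.mpr hp)) (aeval_mem_adjoin_singleton ℝ p)

noncomputable def br (i j : Fin m) : NC m := xv i * xv j + -(xv j * xv i)

theorem Hom.br (i j : Fin m) : Hom w (w i + w j) (br i j) :=
  ((Hom.xv i).mul (Hom.xv j)).add (add_comm (w j : ℤ) (w i) ▸ ((Hom.xv j).mul (Hom.xv i)).neg)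

theorem pure_sq (u : ℍ[ℝ]) (hu : u.re = 0) : -(u * u) = algebraMap ℝ ℍ[ℝ] (normSq u) := by
  have e : normSq u = u.imI * u.imI + u.imJ * u.imJ + u.imK * u.imK := by
    rw [normSq_def', hu]; ring
  generalize normSq u = r at e
  ext
  · simp [hu]; linarith
  · simp [hu]; ring
  · simp [hu]; ring
  · simp [hu]; ring

theorem comm_surj (u : ℍ[ℝ]) (hu : u.re = 0) : ∃ a b : ℍ[ℝ], a * b + -(b * a) = u := by
  obtain ⟨g, hg, e⟩ := exists_conj ⟨0, 0, 0, ‖u‖⟩ u hu.symm (by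
    rw [← pow_left_inj₀ (norm_nonneg _) (norm_nonneg _) two_ne_zero, sq,
      ← normSq_eq_norm_mul_self, normSq_def']
    simp)
  refine ⟨conjHom g hg ⟨0, 1, 0, 0⟩, conjHom g hg ⟨0, 0, ‖u‖ / 2, 0⟩, ?_⟩
  rw [← map_mul, ← map_mul, ← map_neg, ← map_add]
  refine Eq.trans ?_ e
  change conjHom g hg _ = conjHom g hg _
  congr 1
  ext <;> simp

noncomputable def poly4 (γ₁ γ₂ A B : ℝ[X]) : NC 6 :=
  (-(br 2 3 * br 2 3) * aeval (-(br 0 1 * br 0 1)) γ₁ +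
    -(br 4 5 * br 4 5) * aeval (-(br 0 1 * br 0 1)) γ₂) *
    (aeval (-(br 0 1 * br 0 1)) A + aeval (-(br 0 1 * br 0 1)) B * br 0 1)

theorem poly4_hom (γ₁ γ₂ A B : ℝ[X]) : SemiHom (poly4 γ₁ γ₂ A B) := by
  refine ⟨![0, 0, 1, 0, 1, 0], 2, two_ne_zero, ?_⟩
  have h0 : Hom ![0, 0, 1, 0, 1, 0] 0 (br (0 : Fin 6) 1) := Hom.br 0 1
  have h1 : Hom ![0, 0, 1, 0, 1, 0] 1 (br (2 : Fin 6) 3) := Hom.br 2 3
  have h2 : Hom ![0, 0, 1, 0, 1, 0] 1 (br (4 : Fin 6) 5) := Hom.br 4 5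
  have h3 : Hom ![0, 0, 1, 0, 1, 0] 0 (-(br (0 : Fin 6) 1 * br 0 1)) := (h0.mul h0).neg
  exact (((h1.mul h1).neg.mul (h3.aeval γ₁)).add ((h2.mul h2).neg.mul (h3.aeval γ₂))).mul
    ((h3.aeval A).add ((h3.aeval B).mul h0))

theorem poly4_ev (γ₁ γ₂ A B : ℝ[X]) (a : Fin 6 → ℍ[ℝ]) {u v z : ℍ[ℝ]}
    (hu : a 0 * a 1 + -(a 1 * a 0) = u) (hv : a 2 * a 3 + -(a 3 * a 2) = v)
    (hz : a 4 * a 5 + -(a 5 * a 4) = z) : u.re = 0 ∧ ev (poly4 γ₁ γ₂ A B) a =
      (normSq v * γ₁.eval (normSq u) + normSq z * γ₂.eval (normSq u)) •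
        (algebraMap ℝ ℍ[ℝ] (A.eval (normSq u)) + B.eval (normSq u) • u) := by
  have pu : u.re = 0 := by rw [← hu]; simp; ring
  have pv : v.re = 0 := by rw [← hv]; simp; ring
  have pz : z.re = 0 := by rw [← hz]; simp; ring
  refine ⟨pu, ?_⟩
  have hb : ∀ i j, MonoidAlgebra.lift ℝ ℍ[ℝ] (FreeMonoid (Fin 6)) (FreeMonoid.lift a) (br i j)
      = a i * a j + -(a j * a i) := by
    intro i j; simp [br, xv]
  simp only [ev, poly4, map_mul, map_add, map_neg, ← aeval_algHom_apply, hb, hu, hv, hz,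
    pure_sq u pu, pure_sq v pv, pure_sq z pz, aeval_algebraMap_apply_eq_algebraMap_eval,
    Algebra.smul_def]

theorem norm_val (u : ℍ[ℝ]) (hu : u.re = 0) (s α β : ℝ) :
    (s • (algebraMap ℝ ℍ[ℝ] α + β • u)).re = s * α ∧
    ‖s • (algebraMap ℝ ℍ[ℝ] α + β • u)‖ = |s| * √(α ^ 2 + β ^ 2 * normSq u) := by
  refine ⟨by simp [hu], ?_⟩
  rw [norm_smul, Real.norm_eq_abs, ← Real.sqrt_sq (norm_nonneg (_ + β • u)), sq ‖_‖,
    ← normSq_eq_norm_mul_self]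
  congr 2
  simp [normSq_def', hu]
  ring

theorem realize {S : Set ℝ} (h : Real4 S) : ∃ (m : ℕ) (p : NC m), SemiHom p ∧
    (fun q : ℍ[ℝ] => q.re / ‖q‖) '' (range (ev (A := ℍ[ℝ]) p) \ {0}) = S := by
  obtain ⟨γ₁, γ₂, A, B, h1, h2⟩ := h
  refine ⟨6, poly4 γ₁ γ₂ A B, poly4_hom _ _ _ _, subset_antisymm ?_ fun c hc => ?_⟩
  · rintro _ ⟨_, ⟨⟨a, rfl⟩, h0⟩, rfl⟩
    obtain ⟨pu, e⟩ := poly4_ev γ₁ γ₂ A B a rfl rfl rfl
    generalize a 0 * a 1 + -(a 1 * a 0) = u at pu e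
    generalize a 2 * a 3 + -(a 3 * a 2) = v at e
    generalize a 4 * a 5 + -(a 5 * a 4) = z at e
    have hn : ‖ev (poly4 γ₁ γ₂ A B) a‖ ≠ 0 := norm_ne_zero_iff.mpr h0
    simp only
    rw [e, (norm_val u pu _ _ _).2] at hn
    rw [e, (norm_val u pu _ _ _).1, (norm_val u pu _ _ _).2]
    have k := h1 (normSq u) normSq_nonneg fun e => hn (by rw [e]; simp)
    have nv : 0 ≤ normSq v := normSq_nonneg
    have nz : 0 ≤ normSq z := normSq_nonneg
    rcases lt_or_gt_of_ne (abs_ne_zero.mp (left_ne_zero_of_mul hn)) with hs | hs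
    · rw [abs_of_neg hs, neg_mul, div_neg, mul_div_mul_left _ _ hs.ne]
      refine k.2 (by_contra fun h => ?_)
      push Not at h
      nlinarith [mul_nonneg nv h.1, mul_nonneg nz h.2]
    · rw [abs_of_pos hs, mul_div_mul_left _ _ hs.ne']
      refine k.1 (by_contra fun h => ?_)
      push Not at h
      nlinarith [mul_nonneg nv (neg_nonneg.mpr h.1), mul_nonneg nz (neg_nonneg.mpr h.2)]
  · obtain ⟨N, hN, hD, h3⟩ := h2 c hc
    set u : ℍ[ℝ] := ⟨0, √N, 0, 0⟩ with hu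
    have nu : normSq u = N := by simp [hu, normSq_def', Real.sq_sqrt hN]
    have key : ∀ s : ℝ, s = γ₁.eval N ∨ s = γ₂.eval N → s ≠ 0 →
        s * A.eval N / (|s| * √(A.eval N ^ 2 + B.eval N ^ 2 * N)) ∈
          (fun q : ℍ[ℝ] => q.re / ‖q‖) '' (range (ev (A := ℍ[ℝ]) (poly4 γ₁ γ₂ A B)) \ {0}) := by
      intro s hs hs0
      obtain ⟨a, b, hab⟩ := comm_surj u rfl
      obtain ⟨a', b', hab'⟩ := comm_surj ⟨0, 1, 0, 0⟩ rfl
      have n1 : normSq (⟨0, 1, 0, 0⟩ : ℍ[ℝ]) = 1 := by simp [normSq_def']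
      have nv := norm_val u rfl s (A.eval N) (B.eval N)
      rw [nu] at nv
      refine ⟨s • (algebraMap ℝ ℍ[ℝ] (A.eval N) + B.eval N • u), ⟨?_, fun e => ?_⟩, ?_⟩
      · rcases hs with rfl | rfl
        · refine ⟨![a, b, a', b', 0, 0], ?_⟩
          rw [(poly4_ev γ₁ γ₂ A B _ (u := u) (v := ⟨0, 1, 0, 0⟩) (z := 0) hab hab'
            (by simp)).2, nu, n1]
          simp
        · refine ⟨![a, b, 0, 0, a', b'], ?_⟩
          rw [(poly4_ev γ₁ γ₂ A B _ (u := u) (z := ⟨0, 1, 0, 0⟩) (v := 0) hab (by simp)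
            hab').2, nu, n1]
          simp
      · have := nv.2
        rw [e, norm_zero, eq_comm, mul_eq_zero, abs_eq_zero, Real.sqrt_eq_zero (by positivity)] at this
        exact this.elim hs0 hD
      · simp only
        rw [nv.1, nv.2]
    rcases h3 with ⟨h | h, rfl⟩ | ⟨h | h, rfl⟩
    · simpa only [abs_of_pos h, mul_div_mul_left _ _ h.ne'] using key _ (Or.inl rfl) h.ne'
    · simpa only [abs_of_pos h, mul_div_mul_left _ _ h.ne'] using key _ (Or.inr rfl) h.ne'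
    · simpa only [abs_of_neg h, neg_mul, div_neg, mul_div_mul_left _ _ h.ne] using
        key _ (Or.inl rfl) h.ne
    · simpa only [abs_of_neg h, neg_mul, div_neg, mul_div_mul_left _ _ h.ne] using
        key _ (Or.inr rfl) h.ne

theorem main (S : Set ℍ[ℝ]) : (∃ (m : ℕ) (p : NC m), SemiHom p ∧ range (ev (A := ℍ[ℝ]) p) = S) ↔
    ∃ C : Set ℝ, Adm C ∧ S = {0} ∪ {q | q ≠ 0 ∧ q.re / ‖q‖ ∈ C} := by
  constructor
  · rintro ⟨m, p, hp, rfl⟩
    exact ⟨_, adm_ev p, cone_eq hp⟩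
  · rintro ⟨C, hC, rfl⟩
    obtain ⟨m, p, hp, rfl⟩ := realize (real4 hC)
    exact ⟨m, p, hp, cone_eq hp⟩

end Pool.Agent.H.MP_4e44b6_al
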